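import Mathlib

open MvPolynomial

namespace Pool.Agent.Results.MP_72f11f_al.NoFiniteEGB

/-- Index set of the variables `y_ij`, `i ≠ j`. -/
abbrev Idx : Type := {p : ℕ × ℕ // p.1 ≠ p.2}

/-- The action of an injective self-map of `ℕ` on the index set: `(i,j) ↦ (ρ i, ρ j)`. -/
def act (ρ : ℕ → ℕ) (hρ : Function.Injective ρ) (p : Idx) : Idx :=
  ⟨(ρ p.1.1, ρ p.1.2), fun h => p.2 (hρ h)⟩

/-- The polynomial ring `R = ℂ[y_ij : i ≠ j]`. -/
abbrev R : Type := MvPolynomial Idx ℂ

/-- `φ_f : y_ij ↦ f(x_i, x_j)`. -/
noncomputable def phi (f : MvPolynomial (Fin 2) ℂ) : R →ₐ[ℂ] MvPolynomial ℕ ℂ :=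
  aeval (fun p : Idx => aeval ![X p.1.1, X p.1.2] f)

/-- The kernel `I` of `φ_f`. -/
noncomputable def kerPhi (f : MvPolynomial (Fin 2) ℂ) : Ideal R := RingHom.ker (phi f)

/-- `I` is generated by the orbits of a finite subset of `I` under the finitary permutations. -/
def FGUpToSymmetry (I : Ideal R) : Prop :=
  ∃ F : Set R, F.Finite ∧ F ⊆ I ∧
    Ideal.span {q : R | ∃ σ : Equiv.Perm ℕ, {i | σ i ≠ i}.Finite ∧
      ∃ h ∈ F, q = rename (act σ σ.injective) h} = I

/-- The monomial order respects the monoid of strictly increasing maps. -/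
def RespectsInc (m : MonomialOrder Idx) : Prop :=
  ∀ (ρ : ℕ → ℕ) (hρ : StrictMono ρ) (a b : Idx →₀ ℕ), m.toSyn a ≤ m.toSyn b →
    m.toSyn (a.mapDomain (act ρ hρ.injective)) ≤ m.toSyn (b.mapDomain (act ρ hρ.injective))

/-- The initial ideal: spanned by the leading monomials of the nonzero elements of `I`. -/
noncomputable def initialIdeal (m : MonomialOrder Idx) (I : Ideal R) : Ideal R :=
  Ideal.span {q : R | ∃ p ∈ I, p ≠ 0 ∧ q = monomial (m.degree p) 1}

/-- `G` is an equivariant Groebner basis of `I` with respect to `m`. -/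
def IsEGB (m : MonomialOrder Idx) (I : Ideal R) (G : Set R) : Prop :=
  G ⊆ I ∧
    Ideal.span {q : R | ∃ (ρ : ℕ → ℕ) (hρ : StrictMono ρ), ∃ g ∈ G, g ≠ 0 ∧
      q = monomial (m.degree (rename (act ρ hρ.injective) g)) 1} = initialIdeal m I

/-! ### The order -/

/-- smaller endpoint -/
def mn (p : Idx) : ℕ := min p.1.1 p.1.2
/-- larger endpoint -/
def mx (p : Idx) : ℕ := max p.1.1 p.1.2
/-- 1 for a backward pair, 0 for a forward pair -/
def bk (p : Idx) : ℕ := if p.1.2 < p.1.1 then 1 else 0

/-- injective code -/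
def kap (p : Idx) : ℕ := 2 * (mx p * (mx p + 1) - mn p) + bk p

lemma mn_lt_mx (p : Idx) : mn p < mx p := by
  unfold mn mx
  rcases lt_or_gt_of_ne p.2 with h | h
  · simp [h]
  · simp [h]

lemma bk_le (p : Idx) : bk p ≤ 1 := by unfold bk; split_ifs <;> simp

lemma kap_lt_of_mx {p q : Idx} (h : mx p < mx q) : kap p < kap q := by
  have h1 := mn_lt_mx p
  have h2 := mn_lt_mx q
  have h3 := bk_le p
  unfold kap
  have e1 : mn q ≤ mx q * (mx q + 1) := by nlinarith
  have e2 : mn p ≤ mx p * (mx p + 1) := by nlinarith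
  zify [e1, e2]
  have : (mx p : ℤ) + 1 ≤ mx q := by exact_mod_cast h
  have h1' : (mn p : ℤ) < mx p := by exact_mod_cast h1
  have h2' : (mn q : ℤ) < mx q := by exact_mod_cast h2
  have h3' : (bk p : ℤ) ≤ 1 := by exact_mod_cast h3
  have h4 : (0:ℤ) ≤ bk q := by positivity
  have h5 : (0:ℤ) ≤ mn p := by positivity
  have h6 : (0:ℤ) ≤ mx p := by positivity
  nlinarith [mul_le_mul this this (by positivity) (by positivity)]

lemma kap_lt_iff (p q : Idx) : kap p < kap q ↔
    mx p < mx q ∨ (mx p = mx q ∧ (mn q < mn p ∨ (mn p = mn q ∧ bk p < bk q))) := by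
  constructor
  · intro h
    rcases lt_trichotomy (mx p) (mx q) with hm | hm | hm
    · exact Or.inl hm
    · right
      refine ⟨hm, ?_⟩
      have h1 := mn_lt_mx p
      have h2 := mn_lt_mx q
      have h3 := bk_le p
      have h4 := bk_le q
      unfold kap at h
      rw [hm] at h h1
      have e1 : mn q ≤ mx q * (mx q + 1) := by nlinarith
      have e2 : mn p ≤ mx q * (mx q + 1) := by nlinarith
      omega
    · exact absurd (kap_lt_of_mx hm) (by omega)
  · rintro (h | ⟨hm, h⟩)
    · exact kap_lt_of_mx h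
    · have h1 := mn_lt_mx p
      have h2 := mn_lt_mx q
      have h3 := bk_le p
      have h4 := bk_le q
      unfold kap
      rw [hm] at h1 ⊢
      have e1 : mn q ≤ mx q * (mx q + 1) := by nlinarith
      have e2 : mn p ≤ mx q * (mx q + 1) := by nlinarith
      omega

lemma kap_inj : Function.Injective kap := by
  intro p q h
  have h1 : ¬ kap p < kap q := by omega
  have h2 : ¬ kap q < kap p := by omega
  rw [kap_lt_iff] at h1 h2
  have hx : mx p = mx q := by omega
  have hn : mn p = mn q := by omega
  have hb : bk p = bk q := by omega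
  rcases p with ⟨⟨a, b⟩, hp⟩
  rcases q with ⟨⟨c, d⟩, hq⟩
  simp only [mx, mn, bk] at hx hn hb hp hq
  apply Subtype.ext
  simp only [Prod.mk.injEq]
  split_ifs at hb <;> omega

variable {ρ : ℕ → ℕ}

lemma mx_act (hρ : StrictMono ρ) (p : Idx) : mx (act ρ hρ.injective p) = ρ (mx p) := by
  simp only [mx, act]
  exact (hρ.monotone.map_max).symm

lemma mn_act (hρ : StrictMono ρ) (p : Idx) : mn (act ρ hρ.injective p) = ρ (mn p) := by
  simp only [mn, act]
  exact (hρ.monotone.map_min).symm

lemma bk_act (hρ : StrictMono ρ) (p : Idx) : bk (act ρ hρ.injective p) = bk p := by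
  simp only [bk, act, hρ.lt_iff_lt]

lemma kap_act (hρ : StrictMono ρ) (p q : Idx) :
    kap (act ρ hρ.injective p) < kap (act ρ hρ.injective q) ↔ kap p < kap q := by
  rw [kap_lt_iff, kap_lt_iff]
  simp only [mx_act hρ, mn_act hρ, bk_act hρ, hρ.lt_iff_lt, hρ.injective.eq_iff]

lemma act_inj (ρ : ℕ → ℕ) (hρ : Function.Injective ρ) : Function.Injective (act ρ hρ) := by
  intro p q h
  have := congrArg Subtype.val h
  simp only [act, Prod.mk.injEq] at this
  apply Subtype.ext
  exact Prod.ext (hρ this.1) (hρ this.2)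

/-- number of backward pairs -/
noncomputable def nback : (Idx →₀ ℕ) →+ ℕ := Finsupp.liftAddHom (fun p => AddMonoidHom.mulRight (bk p))
/-- the multiset of smaller endpoints -/
noncomputable def mins : (Idx →₀ ℕ) →+ (ℕ →₀ ℕ) := Finsupp.mapDomain.addMonoidHom mn
/-- coded multiset of pairs -/
noncomputable def edg : (Idx →₀ ℕ) →+ (ℕ →₀ ℕ) := Finsupp.mapDomain.addMonoidHom kap

lemma edg_inj : Function.Injective edg := Finsupp.mapDomain_injective kap_inj

/-- The linearly ordered key type. -/
abbrev Key : Type := ℕ ×ₗ (Colex (ℕ →₀ ℕ) ×ₗ Colex (ℕ →₀ ℕ))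

noncomputable def key (a : Idx →₀ ℕ) : Key :=
  toLex (nback a, toLex (toColex (mins a), toColex (edg a)))

lemma key_inj : Function.Injective key := by
  intro a b h
  have h' := (toLex.injective h)
  simp only [Prod.mk.injEq] at h'
  have h2 := toLex.injective h'.2
  simp only [Prod.mk.injEq] at h2
  exact edg_inj (toColex.injective h2.2)

/-- type synonym for monomials with the order -/
def Syn : Type := Idx →₀ ℕ

noncomputable instance : AddCommMonoid Syn := inferInstanceAs (AddCommMonoid (Idx →₀ ℕ))

noncomputable instance : LinearOrder Syn :=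
  LinearOrder.lift' (fun a : Syn => key a) key_inj

lemma syn_le_iff (a b : Syn) : a ≤ b ↔ key a ≤ key b := Iff.rfl
lemma syn_lt_iff (a b : Syn) : a < b ↔ key a < key b := Iff.rfl


lemma key_lt_iff (a b : Idx →₀ ℕ) : key a < key b ↔
    nback a < nback b ∨ (nback a = nback b ∧
      (toColex (mins a) < toColex (mins b) ∨
        (mins a = mins b ∧ toColex (edg a) < toColex (edg b)))) := by
  unfold key
  rw [Prod.Lex.toLex_lt_toLex]
  simp only [Prod.Lex.toLex_lt_toLex]
  constructor
  · rintro (h | ⟨h1, h2⟩)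
    · exact Or.inl h
    · refine Or.inr ⟨h1, ?_⟩
      rcases h2 with h2 | ⟨h2, h3⟩
      · exact Or.inl h2
      · exact Or.inr ⟨toColex.injective h2, h3⟩
  · rintro (h | ⟨h1, h2⟩)
    · exact Or.inl h
    · refine Or.inr ⟨h1, ?_⟩
      rcases h2 with h2 | ⟨h2, h3⟩
      · exact Or.inl h2
      · exact Or.inr ⟨by rw [h2], h3⟩

lemma key_add_lt {a b : Idx →₀ ℕ} (c : Idx →₀ ℕ) (h : key a < key b) :
    key (c + a) < key (c + b) := by
  rw [key_lt_iff] at h ⊢
  simp only [map_add]
  rcases h with h | ⟨h1, h | ⟨h2, h⟩⟩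
  · left; omega
  · right
    refine ⟨by omega, Or.inl ?_⟩
    exact add_lt_add_right h (toColex (mins c))
  · right
    refine ⟨by omega, Or.inr ⟨by rw [h2], ?_⟩⟩
    exact add_lt_add_right h (toColex (edg c))

instance : IsOrderedAddMonoid Syn where
  add_le_add_left a b h c := by
    rcases h.lt_or_eq with h | h
    · rw [add_comm a c, add_comm b c]
      exact le_of_lt (key_add_lt c h)
    · rw [h]

instance : WellFoundedLT Syn where
  wf := InvImage.wf (fun a : Syn => key a) (wellFounded_lt (α := Key))

lemma syn_mono (a b : Idx →₀ ℕ) (h : a ≤ b) : key a ≤ key b := by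
  obtain ⟨c, rfl⟩ := exists_add_of_le h
  by_contra hlt
  rw [not_le] at hlt
  rw [key_lt_iff] at hlt
  simp only [map_add] at hlt
  have aux : ∀ x y : ℕ →₀ ℕ, ¬ toColex (x + y) < toColex x := by
    intro x y hh
    rw [Finsupp.Colex.lt_iff] at hh
    obtain ⟨i, _, hi⟩ := hh
    simp at hi
  rcases hlt with h | ⟨_, h | ⟨_, h⟩⟩
  · omega
  · exact aux _ _ h
  · exact aux _ _ h

/-- The bad monomial order. -/
noncomputable def badOrder : MonomialOrder Idx where
  syn := Syn
  toSyn := AddEquiv.refl _
  toSyn_monotone := fun a b h => syn_mono a b h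

lemma bad_le (a b : Idx →₀ ℕ) : badOrder.toSyn a ≤ badOrder.toSyn b ↔ key a ≤ key b := Iff.rfl
lemma bad_lt (a b : Idx →₀ ℕ) : badOrder.toSyn a < badOrder.toSyn b ↔ key a < key b := Iff.rfl

lemma colex_mapDomain {ρ : ℕ → ℕ} (hρ : StrictMono ρ) {x y : ℕ →₀ ℕ}
    (h : toColex x < toColex y) : toColex (x.mapDomain ρ) < toColex (y.mapDomain ρ) := by
  rw [Finsupp.Colex.lt_iff] at h ⊢
  obtain ⟨i, hi, hlt⟩ := h
  refine ⟨ρ i, ?_, ?_⟩
  · intro j hj
    change x.mapDomain ρ j = y.mapDomain ρ j
    by_cases hr : j ∈ Set.range ρ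
    · obtain ⟨j', rfl⟩ := hr
      rw [Finsupp.mapDomain_apply hρ.injective, Finsupp.mapDomain_apply hρ.injective]
      exact hi j' (hρ.lt_iff_lt.mp hj)
    · rw [Finsupp.mapDomain_of_notMem_range _ _ hr, Finsupp.mapDomain_of_notMem_range _ _ hr]
  · change x.mapDomain ρ (ρ i) < y.mapDomain ρ (ρ i)
    rw [Finsupp.mapDomain_apply hρ.injective, Finsupp.mapDomain_apply hρ.injective]
    exact hlt

lemma edg_apply (a : Idx →₀ ℕ) (p : Idx) : edg a (kap p) = a p :=
  Finsupp.mapDomain_apply kap_inj a p

lemma edg_apply_notin (a : Idx →₀ ℕ) {n : ℕ} (h : n ∉ Set.range kap) : edg a n = 0 :=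
  Finsupp.mapDomain_of_notMem_range _ _ h

lemma edg_lt_iff (a b : Idx →₀ ℕ) : toColex (edg a) < toColex (edg b) ↔
    ∃ p, (∀ q, kap p < kap q → a q = b q) ∧ a p < b p := by
  rw [Finsupp.Colex.lt_iff]
  constructor
  · rintro ⟨i, hi, hlt⟩
    change edg a i < edg b i at hlt
    by_cases hr : i ∈ Set.range kap
    · obtain ⟨p, rfl⟩ := hr
      refine ⟨p, ?_, ?_⟩
      · intro q hq
        have := hi _ hq
        change edg a (kap q) = edg b (kap q) at this
        rwa [edg_apply, edg_apply] at this
      · rwa [edg_apply, edg_apply] at hlt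
    · rw [edg_apply_notin _ hr, edg_apply_notin _ hr] at hlt
      exact absurd hlt (lt_irrefl _)
  · rintro ⟨p, hp, hlt⟩
    refine ⟨kap p, ?_, ?_⟩
    · intro j hj
      change edg a j = edg b j
      by_cases hr : j ∈ Set.range kap
      · obtain ⟨q, rfl⟩ := hr
        rw [edg_apply, edg_apply]
        exact hp q hj
      · rw [edg_apply_notin _ hr, edg_apply_notin _ hr]
    · change edg a (kap p) < edg b (kap p)
      rwa [edg_apply, edg_apply]

lemma nback_apply (a : Idx →₀ ℕ) : nback a = a.sum (fun p n => n * bk p) := by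
  simp [nback, Finsupp.liftAddHom_apply]

lemma nback_act (hρ : StrictMono ρ) (a : Idx →₀ ℕ) :
    nback (a.mapDomain (act ρ hρ.injective)) = nback a := by
  rw [nback_apply, nback_apply, Finsupp.sum_mapDomain_index]
  · simp [bk_act hρ]
  · simp
  · intro b m n; ring

lemma mins_act (hρ : StrictMono ρ) (a : Idx →₀ ℕ) :
    mins (a.mapDomain (act ρ hρ.injective)) = (mins a).mapDomain ρ := by
  change (a.mapDomain (act ρ hρ.injective)).mapDomain mn = (a.mapDomain mn).mapDomain ρ
  rw [← Finsupp.mapDomain_comp, ← Finsupp.mapDomain_comp]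
  congr 1
  funext p
  exact mn_act hρ p

lemma edg_act (hρ : StrictMono ρ) {a b : Idx →₀ ℕ} (h : toColex (edg a) < toColex (edg b)) :
    toColex (edg (a.mapDomain (act ρ hρ.injective))) <
      toColex (edg (b.mapDomain (act ρ hρ.injective))) := by
  rw [edg_lt_iff] at h ⊢
  obtain ⟨p, hp, hlt⟩ := h
  refine ⟨act ρ hρ.injective p, ?_, ?_⟩
  · intro q hq
    by_cases hr : q ∈ Set.range (act ρ hρ.injective)
    · obtain ⟨q', rfl⟩ := hr
      rw [Finsupp.mapDomain_apply (act_inj _ _), Finsupp.mapDomain_apply (act_inj _ _)]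
      exact hp q' ((kap_act hρ p q').mp hq)
    · rw [Finsupp.mapDomain_of_notMem_range _ _ hr, Finsupp.mapDomain_of_notMem_range _ _ hr]
  · rw [Finsupp.mapDomain_apply (act_inj _ _), Finsupp.mapDomain_apply (act_inj _ _)]
    exact hlt

theorem bad_respects : RespectsInc badOrder := by
  intro ρ hρ a b h
  rw [bad_le] at h ⊢
  rcases h.lt_or_eq with h | h
  · apply le_of_lt
    rw [key_lt_iff] at h ⊢
    rw [nback_act hρ, nback_act hρ, mins_act hρ, mins_act hρ]
    rcases h with h | ⟨h1, h | ⟨h2, h⟩⟩
    · exact Or.inl h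
    · exact Or.inr ⟨h1, Or.inl (colex_mapDomain hρ h)⟩
    · exact Or.inr ⟨h1, Or.inr ⟨by rw [h2], edg_act hρ h⟩⟩
  · rw [key_inj h]


/-! ### Weights -/

/-- contribution of a pair `(u,v)` to the multidegree of `x_u^2 x_v` -/
noncomputable def pw (p : Idx) : ℕ →₀ ℕ := Finsupp.single p.1.1 2 + Finsupp.single p.1.2 1

/-- multidegree of the image of a monomial under `y_uv ↦ x_u^2 x_v` -/
noncomputable def wt : (Idx →₀ ℕ) →+ (ℕ →₀ ℕ) :=
  Finsupp.liftAddHom (fun p => (AddMonoidHom.flip (smulAddHom ℕ (ℕ →₀ ℕ))) (pw p))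

lemma wt_single (p : Idx) (n : ℕ) : wt (Finsupp.single p n) = n • pw p := by
  simp [wt]

lemma wt_eq_sum (a : Idx →₀ ℕ) : wt a = a.sum (fun p n => n • pw p) := rfl

lemma wt_apply (a : Idx →₀ ℕ) (v : ℕ) :
    wt a v = ∑ p ∈ a.support, a p * ((if p.1.1 = v then 2 else 0) + (if p.1.2 = v then 1 else 0)) := by
  rw [wt_eq_sum, Finsupp.sum, Finsupp.finsetSum_apply]
  apply Finset.sum_congr rfl
  intro p _
  simp only [pw, Finsupp.smul_apply, Finsupp.add_apply, Finsupp.single_apply, smul_eq_mul]

lemma wt_mono {a b : Idx →₀ ℕ} (h : a ≤ b) : wt a ≤ wt b := by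
  obtain ⟨c, rfl⟩ := exists_add_of_le h
  rw [map_add]
  exact le_self_add

/-- integer valued functional of the multidegree -/
noncomputable def ev (w : ℕ → ℤ) (D : ℕ →₀ ℕ) : ℤ := D.sum (fun v n => (n : ℤ) * w v)

lemma ev_add (w : ℕ → ℤ) (D E : ℕ →₀ ℕ) : ev w (D + E) = ev w D + ev w E := by
  unfold ev
  rw [Finsupp.sum_add_index']
  · simp
  · intro a b c; push_cast; ring

lemma ev_wt (w : ℕ → ℤ) (a : Idx →₀ ℕ) :
    ev w (wt a) = ∑ p ∈ a.support, (a p : ℤ) * (2 * w p.1.1 + w p.1.2) := by
  have : ∀ a : Idx →₀ ℕ, ev w (wt a) = a.sum (fun p n => (n : ℤ) * (2 * w p.1.1 + w p.1.2)) := by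
    intro a
    induction a using Finsupp.induction_linear with
    | zero => simp [ev]
    | add f g hf hg =>
      rw [map_add, ev_add, hf, hg, Finsupp.sum_add_index']
      · simp
      · intro a b c; push_cast; ring
    | single p n =>
      rw [wt_single, Finsupp.sum_single_index (by simp)]
      unfold ev pw
      rw [smul_add, Finsupp.smul_single, Finsupp.smul_single, Finsupp.sum_add_index']
      · rw [Finsupp.sum_single_index (by simp), Finsupp.sum_single_index (by simp)]
        simp only [smul_eq_mul]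
        push_cast
        ring
      · simp
      · intro a b c; push_cast; ring
  rw [this]
  rfl

lemma exists_of_wt_pos {a : Idx →₀ ℕ} {v : ℕ} (h : 1 ≤ wt a v) :
    ∃ p ∈ a.support, p.1.1 = v ∨ p.1.2 = v := by
  by_contra hcon
  push Not at hcon
  rw [wt_apply, Finset.sum_eq_zero] at h
  · omega
  · intro p hp
    simp [hcon p hp]

lemma single_le {a : Idx →₀ ℕ} {p : Idx} (hp : p ∈ a.support) : Finsupp.single p 1 ≤ a := by
  rw [Finsupp.single_le_iff]
  exact Nat.one_le_iff_ne_zero.mpr (Finsupp.mem_support_iff.mp hp)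

lemma single_add_le {a : Idx →₀ ℕ} {p q : Idx} (hp : p ∈ a.support) (hq : q ∈ a.support)
    (hpq : p ≠ q) : Finsupp.single p 1 + Finsupp.single q 1 ≤ a := by
  intro r
  rw [Finsupp.add_apply, Finsupp.single_apply, Finsupp.single_apply]
  have h1 := Nat.one_le_iff_ne_zero.mpr (Finsupp.mem_support_iff.mp hp)
  have h2 := Nat.one_le_iff_ne_zero.mpr (Finsupp.mem_support_iff.mp hq)
  split_ifs with h3 h4 h4
  · exact absurd (h3.trans h4.symm) hpq
  · subst h3; simpa using h1
  · subst h4; simpa using h2
  · simp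

/-- indicator of a finite set of pairs -/
noncomputable def ind (E : Finset Idx) : Idx →₀ ℕ := ∑ p ∈ E, Finsupp.single p 1

lemma ind_apply (E : Finset Idx) (p : Idx) : ind E p = if p ∈ E then 1 else 0 := by
  unfold ind
  rw [Finsupp.finsetSum_apply]
  simp [Finsupp.single_apply]

lemma mem_supp_ind (E : Finset Idx) (p : Idx) : p ∈ (ind E).support ↔ p ∈ E := by
  rw [Finsupp.mem_support_iff, ind_apply]
  split_ifs <;> simp_all

lemma supp_ind (E : Finset Idx) : (ind E).support = E := by
  ext p; exact mem_supp_ind E p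

/-- A set of pairs, each going from an even number to an odd number, no two sharing an endpoint. -/
structure Match (E : Finset Idx) : Prop where
  eo : ∀ p ∈ E, Even p.1.1 ∧ Odd p.1.2
  fst_inj : ∀ p ∈ E, ∀ q ∈ E, p.1.1 = q.1.1 → p = q
  snd_inj : ∀ p ∈ E, ∀ q ∈ E, p.1.2 = q.1.2 → p = q

lemma Match.wt_le_two {E : Finset Idx} (hE : Match E) (v : ℕ) : wt (ind E) v ≤ 2 := by
  rw [wt_apply, supp_ind]
  rcases Nat.even_or_odd v with hv | hv
  · have : ∑ p ∈ E, ind E p * ((if p.1.1 = v then 2 else 0) + (if p.1.2 = v then 1 else 0)) =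
        ∑ p ∈ E, (if p.1.1 = v then 2 else 0) := by
      apply Finset.sum_congr rfl
      intro p hp
      have h2 : p.1.2 ≠ v := by
        rintro rfl
        exact (Nat.not_even_iff_odd.mpr (hE.eo p hp).2) hv
      simp [ind_apply, hp, h2]
    rw [this, ← Finset.sum_filter, Finset.sum_const]
    have : (E.filter (fun p => p.1.1 = v)).card ≤ 1 := by
      rw [Finset.card_le_one]
      intro a ha b hb
      rw [Finset.mem_filter] at ha hb
      exact hE.fst_inj a ha.1 b hb.1 (ha.2.trans hb.2.symm)
    simp only [smul_eq_mul]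
    omega
  · have : ∑ p ∈ E, ind E p * ((if p.1.1 = v then 2 else 0) + (if p.1.2 = v then 1 else 0)) =
        ∑ p ∈ E, (if p.1.2 = v then 1 else 0) := by
      apply Finset.sum_congr rfl
      intro p hp
      have h2 : p.1.1 ≠ v := by
        rintro rfl
        exact (Nat.not_even_iff_odd.mpr hv) (hE.eo p hp).1
      simp [ind_apply, hp, h2]
    rw [this, ← Finset.sum_filter, Finset.sum_const]
    have : (E.filter (fun p => p.1.2 = v)).card ≤ 1 := by
      rw [Finset.card_le_one]
      intro a ha b hb
      rw [Finset.mem_filter] at ha hb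
      exact hE.snd_inj a ha.1 b hb.1 (ha.2.trans hb.2.symm)
    simp only [smul_eq_mul]
    omega

lemma Match.wt_le_one {E : Finset Idx} (hE : Match E) {v : ℕ} (hv : Odd v) :
    wt (ind E) v ≤ 1 := by
  rw [wt_apply, supp_ind]
  have : ∑ p ∈ E, ind E p * ((if p.1.1 = v then 2 else 0) + (if p.1.2 = v then 1 else 0)) =
      ∑ p ∈ E, (if p.1.2 = v then 1 else 0) := by
    apply Finset.sum_congr rfl
    intro p hp
    have h2 : p.1.1 ≠ v := by
      rintro rfl
      exact (Nat.not_even_iff_odd.mpr hv) (hE.eo p hp).1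
    simp [ind_apply, hp, h2]
  rw [this, ← Finset.sum_filter, Finset.sum_const]
  have : (E.filter (fun p => p.1.2 = v)).card ≤ 1 := by
    rw [Finset.card_le_one]
    intro a ha b hb
    rw [Finset.mem_filter] at ha hb
    exact hE.snd_inj a ha.1 b hb.1 (ha.2.trans hb.2.symm)
  simp only [smul_eq_mul]
  omega

lemma Match.wt_fst_pos {E : Finset Idx} {p : Idx} (hp : p ∈ E) : 2 ≤ wt (ind E) p.1.1 := by
  have h := wt_mono (single_le ((mem_supp_ind E p).mpr hp)) p.1.1
  rw [wt_single] at h
  simp [pw, Finsupp.single_apply] at h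
  omega

lemma Match.wt_snd_pos {E : Finset Idx} {p : Idx} (hp : p ∈ E) : 1 ≤ wt (ind E) p.1.2 := by
  have h := wt_mono (single_le ((mem_supp_ind E p).mpr hp)) p.1.2
  rw [wt_single] at h
  simp [pw, Finsupp.single_apply] at h
  omega

section fibre

variable {E : Finset Idx} (hE : Match E) {N : Idx →₀ ℕ} (hN : wt N = wt (ind E))

include hE hN

lemma fib_even {p : Idx} (hp : p ∈ N.support) : Even p.1.1 := by
  by_contra h
  rw [Nat.not_even_iff_odd] at h
  have h1 := wt_mono (single_le hp) p.1.1
  rw [wt_single, hN] at h1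
  have h2 := hE.wt_le_one h
  simp [pw, Finsupp.single_apply] at h1
  omega

lemma fib_odd {p : Idx} (hp : p ∈ N.support) : Odd p.1.2 := by
  set w : ℕ → ℤ := fun v => if Even v then 1 else -2 with hw
  have h0 : ev w (wt (ind E)) = 0 := by
    rw [ev_wt, supp_ind]
    apply Finset.sum_eq_zero
    intro q hq
    have := hE.eo q hq
    simp [hw, this.1, Nat.not_even_iff_odd.mpr this.2]
  rw [← hN, ev_wt] at h0
  have h1 : ∀ q ∈ N.support, 0 ≤ (N q : ℤ) * (2 * w q.1.1 + w q.1.2) := by
    intro q hq
    apply mul_nonneg (by positivity)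
    simp only [hw, fib_even hE hN hq, if_true]
    split_ifs <;> norm_num
  rw [Finset.sum_eq_zero_iff_of_nonneg h1] at h0
  have h2 := h0 p hp
  by_contra hcon
  rw [Nat.not_odd_iff_even] at hcon
  simp only [hw, fib_even hE hN hp, hcon, if_true] at h2
  have h3 := Finsupp.mem_support_iff.mp hp
  have h4 : (N p : ℤ) ≠ 0 := by exact_mod_cast h3
  have h5 : (N p : ℤ) = 0 := by linarith
  exact h4 h5

lemma fib_le_one (p : Idx) : N p ≤ 1 := by
  by_cases hp : p ∈ N.support
  · have h1 : wt (Finsupp.single p (N p)) p.1.1 ≤ wt N p.1.1 :=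
      wt_mono (by rw [Finsupp.single_le_iff]) p.1.1
    rw [wt_single, hN] at h1
    have h2 := hE.wt_le_two p.1.1
    simp [pw, Finsupp.single_apply] at h1
    omega
  · rw [Finsupp.notMem_support_iff] at hp
    omega

lemma fib_eq_one {p : Idx} (hp : p ∈ N.support) : N p = 1 := by
  have h1 := fib_le_one hE hN p
  have h2 := Finsupp.mem_support_iff.mp hp
  omega

lemma fib_fst_inj {p q : Idx} (hp : p ∈ N.support) (hq : q ∈ N.support) (h : p.1.1 = q.1.1) :
    p = q := by
  by_contra hne
  have h1 := wt_mono (single_add_le hp hq hne) p.1.1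
  rw [map_add, wt_single, wt_single, hN] at h1
  have h2 := hE.wt_le_two p.1.1
  simp [pw, Finsupp.single_apply, h] at h1
  rw [h] at h2
  omega

lemma fib_snd_inj {p q : Idx} (hp : p ∈ N.support) (hq : q ∈ N.support) (h : p.1.2 = q.1.2) :
    p = q := by
  by_contra hne
  have h1 := wt_mono (single_add_le hp hq hne) p.1.2
  rw [map_add, wt_single, wt_single, hN] at h1
  have h2 := hE.wt_le_one (fib_odd hE hN hp)
  simp [pw, Finsupp.single_apply, h] at h1
  rw [h] at h2
  omega

lemma fib_exists_fst {p : Idx} (hp : p ∈ E) : ∃ q ∈ N.support, q.1.1 = p.1.1 := by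
  have h1 := Match.wt_fst_pos hp
  rw [← hN] at h1
  obtain ⟨q, hq, h | h⟩ := exists_of_wt_pos (le_trans (by norm_num) h1 : 1 ≤ wt N p.1.1)
  · exact ⟨q, hq, h⟩
  · exfalso
    have h2 := fib_odd hE hN hq
    rw [h] at h2
    exact (Nat.not_even_iff_odd.mpr h2) (hE.eo p hp).1

lemma fib_exists_snd {p : Idx} (hp : p ∈ E) : ∃ q ∈ N.support, q.1.2 = p.1.2 := by
  have h1 := Match.wt_snd_pos hp
  rw [← hN] at h1
  obtain ⟨q, hq, h | h⟩ := exists_of_wt_pos h1
  · exfalso
    have h2 := fib_even hE hN hq
    rw [h] at h2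
    exact (Nat.not_even_iff_odd.mpr (hE.eo p hp).2) h2
  · exact ⟨q, hq, h⟩

/-- sources of `N` are sources of `E` -/
lemma fib_source {q : Idx} (hq : q ∈ N.support) : ∃ p ∈ E, p.1.1 = q.1.1 := by
  have h1 := wt_mono (single_le hq) q.1.1
  rw [wt_single, hN] at h1
  simp only [pw, one_smul, Finsupp.add_apply, Finsupp.single_apply] at h1
  obtain ⟨p, hp, h | h⟩ := exists_of_wt_pos (v := q.1.1) (a := ind E) (by
    simp at h1; omega)
  · exact ⟨p, (mem_supp_ind E p).mp hp, h⟩
  · exfalso
    have h2 := (hE.eo p ((mem_supp_ind E p).mp hp)).2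
    rw [h] at h2
    exact (Nat.not_even_iff_odd.mpr h2) (fib_even hE hN hq)

end fibre


/-! ### The bad monomials -/

/-- forward pair `(2i, 2i+3)` -/
def fe (i : ℕ) : Idx := ⟨(2 * i, 2 * i + 3), by simp⟩
/-- backward pair `(2n, 1)` -/
def be (n : ℕ) : Idx := ⟨(2 * n, 1), by simp⟩
/-- adjacent pair `(2i, 2i+1)` -/
def ae (i : ℕ) : Idx := ⟨(2 * i, 2 * i + 1), by simp⟩

/-- support of the bad monomial -/
def Em (n : ℕ) : Finset Idx := insert (be n) ((Finset.range n).image fe)

lemma mem_Em {n : ℕ} {p : Idx} : p ∈ Em n ↔ p = be n ∨ ∃ i < n, p = fe i := by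
  simp only [Em, Finset.mem_insert, Finset.mem_image, Finset.mem_range]
  constructor
  · rintro (h | ⟨i, hi, rfl⟩)
    · exact Or.inl h
    · exact Or.inr ⟨i, hi, rfl⟩
  · rintro (h | ⟨i, hi, rfl⟩)
    · exact Or.inl h
    · exact Or.inr ⟨i, hi, rfl⟩

lemma match_Em (n : ℕ) : Match (Em n) where
  eo p hp := by
    rcases mem_Em.mp hp with rfl | ⟨i, _, rfl⟩
    · exact ⟨by simp [be], by simp [be]⟩
    · refine ⟨by simp [fe], ?_⟩
      simp only [fe]
      exact ⟨i + 1, by ring⟩
  fst_inj p hp q hq h := by
    rcases mem_Em.mp hp with rfl | ⟨i, hi, rfl⟩ <;> rcases mem_Em.mp hq with rfl | ⟨j, hj, rfl⟩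
    · rfl
    · simp only [be, fe] at h; omega
    · simp only [be, fe] at h; omega
    · simp only [fe] at h
      have : i = j := by omega
      rw [this]
  snd_inj p hp q hq h := by
    rcases mem_Em.mp hp with rfl | ⟨i, hi, rfl⟩ <;> rcases mem_Em.mp hq with rfl | ⟨j, hj, rfl⟩
    · rfl
    · simp only [be, fe] at h; omega
    · simp only [be, fe] at h; omega
    · simp only [fe] at h
      have : i = j := by omega
      rw [this]

lemma Match.erase {E : Finset Idx} (hE : Match E) (e : Idx) : Match (E.erase e) where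
  eo p hp := hE.eo p (Finset.mem_of_mem_erase hp)
  fst_inj p hp q hq h := hE.fst_inj p (Finset.mem_of_mem_erase hp) q (Finset.mem_of_mem_erase hq) h
  snd_inj p hp q hq h := hE.snd_inj p (Finset.mem_of_mem_erase hp) q (Finset.mem_of_mem_erase hq) h

lemma nback_ind (E : Finset Idx) : nback (ind E) = ∑ p ∈ E, bk p := by
  rw [nback_apply, Finsupp.sum, supp_ind]
  apply Finset.sum_congr rfl
  intro p hp
  simp [ind_apply, hp]

lemma nback_eq (a : Idx →₀ ℕ) : nback a = ∑ p ∈ a.support, a p * bk p := by
  rw [nback_apply]; rfl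

lemma bk_fe (i : ℕ) : bk (fe i) = 0 := by simp [bk, fe]
lemma bk_be {n : ℕ} (hn : 1 ≤ n) : bk (be n) = 1 := by
  have h : (be n).1.2 < (be n).1.1 := by simp only [be]; omega
  unfold bk
  exact if_pos h
lemma bk_ae (i : ℕ) : bk (ae i) = 0 := by simp [bk, ae]

lemma fwd_of_bk {p : Idx} (h : bk p = 0) : p.1.1 < p.1.2 := by
  unfold bk at h
  split_ifs at h with h1
  have := p.2
  omega

lemma bwd_of_bk {p : Idx} (h : bk p ≠ 0) : p.1.2 < p.1.1 := by
  unfold bk at h
  split_ifs at h with h1
  · exact h1
  · exact absurd rfl h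

lemma mn_fwd {p : Idx} (h : p.1.1 < p.1.2) : mn p = p.1.1 := by
  unfold mn; omega
lemma mn_bwd {p : Idx} (h : p.1.2 < p.1.1) : mn p = p.1.2 := by
  unfold mn; omega
lemma mx_fwd {p : Idx} (h : p.1.1 < p.1.2) : mx p = p.1.2 := by
  unfold mx; omega
lemma mx_bwd {p : Idx} (h : p.1.2 < p.1.1) : mx p = p.1.1 := by
  unfold mx; omega

lemma mins_pos {a : Idx →₀ ℕ} {p : Idx} (hp : p ∈ a.support) : 1 ≤ mins a (mn p) := by
  obtain ⟨c, hc⟩ := exists_add_of_le (single_le hp)
  rw [hc, map_add]
  have : mins (Finsupp.single p 1) = Finsupp.single (mn p) 1 := Finsupp.mapDomain_single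
  rw [this, Finsupp.add_apply, Finsupp.single_eq_same]
  omega

lemma exists_of_mins_pos {a : Idx →₀ ℕ} {v : ℕ} (h : mins a v ≠ 0) :
    ∃ p ∈ a.support, mn p = v := by
  have h1 : v ∈ (mins a).support := Finsupp.mem_support_iff.mpr h
  have h2 := Finsupp.mapDomain_support h1
  rw [Finset.mem_image] at h2
  exact h2

lemma mins_ind_apply (E : Finset Idx) (v : ℕ) :
    mins (ind E) v = (E.filter (fun p => mn p = v)).card := by
  have : mins (ind E) = ∑ p ∈ E, Finsupp.single (mn p) 1 := by
    unfold ind
    rw [map_sum]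
    apply Finset.sum_congr rfl
    intro p _
    exact Finsupp.mapDomain_single
  rw [this, Finsupp.finsetSum_apply, Finset.card_filter]
  apply Finset.sum_congr rfl
  intro p _
  rw [Finsupp.single_apply]

/-- smaller endpoints are pairwise different in the bad monomial -/
lemma mn_inj_Em {n : ℕ} (hn : 1 ≤ n) {p q : Idx} (hp : p ∈ Em n) (hq : q ∈ Em n)
    (h : mn p = mn q) : p = q := by
  have hbe : mn (be n) = 1 := by
    rw [mn_bwd]
    · rfl
    · simp only [be]; omega
  have hfe : ∀ i, mn (fe i) = 2 * i := by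
    intro i
    rw [mn_fwd]
    · rfl
    · simp only [fe]; omega
  rcases mem_Em.mp hp with rfl | ⟨i, hi, rfl⟩ <;> rcases mem_Em.mp hq with rfl | ⟨j, hj, rfl⟩
  · rfl
  · rw [hbe, hfe] at h; omega
  · rw [hbe, hfe] at h; omega
  · rw [hfe, hfe] at h
    have : i = j := by omega
    rw [this]

lemma mins_ind_le_one {n : ℕ} (hn : 1 ≤ n) (e : Idx) (v : ℕ) :
    mins (ind ((Em n).erase e)) v ≤ 1 := by
  rw [mins_ind_apply, Finset.card_le_one]
  intro a ha b hb
  rw [Finset.mem_filter] at ha hb
  exact mn_inj_Em hn (Finset.mem_of_mem_erase ha.1) (Finset.mem_of_mem_erase hb.1)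
    (ha.2.trans hb.2.symm)

/-- The endgame: once all pairs other than `be n` are forward, no colex descent is possible. -/
lemma endgame {n : ℕ} {e : Idx} {N : Idx →₀ ℕ}
    (hN : wt N = wt (ind ((Em n).erase e)))
    (hfwd : ∀ p ∈ N.support, p ≠ be n → p.1.1 < p.1.2)
    (hbe : be n ∈ (Em n).erase e → be n ∈ N.support)
    (hlt : toColex (edg N) < toColex (edg (ind ((Em n).erase e)))) : False := by
  have hE := (match_Em n).erase e
  rw [edg_lt_iff] at hlt
  obtain ⟨p, hp, hlt⟩ := hlt
  rw [ind_apply] at hlt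
  have hpE : p ∈ (Em n).erase e := by
    by_contra h
    rw [if_neg h] at hlt
    omega
  have hNp : p ∉ N.support := by
    rw [Finsupp.notMem_support_iff]
    rw [if_pos hpE] at hlt
    omega
  have hpne : p ≠ be n := by
    rintro rfl
    exact hNp (hbe hpE)
  obtain ⟨i, hi, rfl⟩ : ∃ i < n, p = fe i := by
    rcases mem_Em.mp (Finset.mem_of_mem_erase hpE) with h | h
    · exact absurd h hpne
    · exact h
  obtain ⟨q, hq, hq2⟩ := fib_exists_snd hE hN hpE
  have hq2' : q.1.2 = 2 * i + 3 := hq2
  -- q is not `be n`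
  have hqbe : q ≠ be n := by
    rintro rfl
    simp only [be] at hq2'
    omega
  have hqf := hfwd q hq hqbe
  obtain ⟨u, hu⟩ := fib_even hE hN hq
  have hune : q.1.1 ≠ 2 * i := by
    intro h
    apply hNp
    have : q = fe i := by
      apply Subtype.ext
      exact Prod.ext h hq2'
    rwa [this] at hq
  rcases lt_or_gt_of_ne hune with hlt2 | hgt
  · -- larger pair in N
    have hk : kap (fe i) < kap q := by
      rw [kap_lt_iff]
      right
      have h1 : (fe i).1.1 < (fe i).1.2 := by simp only [fe]; omega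
      rw [mx_fwd h1, mx_fwd hqf, mn_fwd h1, mn_fwd hqf]
      refine ⟨hq2.symm, Or.inl ?_⟩
      simpa [fe] using hlt2
    have h2 := hp q hk
    rw [ind_apply, fib_eq_one hE hN hq] at h2
    have hqE : q ∈ (Em n).erase e := by
      by_contra h
      rw [if_neg h] at h2
      omega
    have := hE.snd_inj q hqE (fe i) hpE hq2
    rw [this] at hq
    exact hNp hq
  · -- q = (2i+2, 2i+3)
    have hq1 : q.1.1 = 2 * (i + 1) := by omega
    obtain ⟨r, hr, hr1⟩ := fib_source hE hN hq
    rw [hq1] at hr1
    rcases mem_Em.mp (Finset.mem_of_mem_erase hr) with rfl | ⟨j, hj, rfl⟩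
    · -- source 2n is used by be n in N
      have h3 := hbe hr
      have h4 : (be n).1.1 = q.1.1 := by rw [hr1, hq1]
      exact hqbe (fib_fst_inj hE hN h3 hq h4).symm
    · have hj' : j = i + 1 := by simp only [fe] at hr1; omega
      subst hj'
      have hk : kap (fe i) < kap (fe (i + 1)) := by
        rw [kap_lt_iff]
        left
        have h1 : (fe i).1.1 < (fe i).1.2 := by simp only [fe]; omega
        have h2 : (fe (i+1)).1.1 < (fe (i+1)).1.2 := by simp only [fe]; omega
        rw [mx_fwd h1, mx_fwd h2]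
        simp only [fe]; omega
      have h2 := hp _ hk
      rw [ind_apply, if_pos hr] at h2
      have h5 : fe (i + 1) ∈ N.support := by
        rw [Finsupp.mem_support_iff]; omega
      have h6 := fib_fst_inj hE hN h5 hq (by rw [hq1]; rfl)
      rw [← h6] at hq2'
      simp only [fe] at hq2'
      omega

/-- **Minimality**: every monomial obtained by deleting one variable from the bad monomial
is the smallest one in its fibre. -/
theorem minimal_fibre {n : ℕ} (hn : 1 ≤ n) {e : Idx} (he : e ∈ Em n) {N : Idx →₀ ℕ}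
    (hN : wt N = wt (ind ((Em n).erase e))) : key (ind ((Em n).erase e)) ≤ key N := by
  by_contra hlt
  rw [not_le, key_lt_iff] at hlt
  have hE := (match_Em n).erase e
  have hmnfe : ∀ i, mn (fe i) = 2 * i := by
    intro i
    rw [mn_fwd]
    · rfl
    · simp only [fe]; omega
  rcases mem_Em.mp he with rfl | ⟨j, hj, rfl⟩
  · -- deleted the backward pair
    have h0 : nback (ind ((Em n).erase (be n))) = 0 := by
      rw [nback_ind]
      apply Finset.sum_eq_zero
      intro p hp
      rw [Finset.mem_erase] at hp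
      rcases mem_Em.mp hp.2 with h | ⟨i, _, rfl⟩
      · exact absurd h hp.1
      · exact bk_fe i
    rw [h0] at hlt
    have hb : nback N = 0 := by
      rcases hlt with h | ⟨h, _⟩
      · omega
      · exact h
    have hfwd : ∀ p ∈ N.support, p.1.1 < p.1.2 := by
      intro p hp
      apply fwd_of_bk
      rw [nback_eq, Finset.sum_eq_zero_iff] at hb
      have := hb p hp
      rw [fib_eq_one hE hN hp] at this
      omega
    rcases hlt with h | ⟨_, h | ⟨_, h⟩⟩
    · omega
    · rw [Finsupp.Colex.lt_iff] at h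
      obtain ⟨v, _, hv⟩ := h
      change mins N v < mins (ind ((Em n).erase (be n))) v at hv
      have h1 := mins_ind_le_one hn (be n) v
      obtain ⟨p, hp, hpv⟩ := exists_of_mins_pos (a := ind ((Em n).erase (be n))) (v := v) (by omega)
      rw [mem_supp_ind] at hp
      obtain ⟨q, hq, hq1⟩ := fib_exists_fst hE hN hp
      have h2 := mins_pos hq
      have hpf : p.1.1 < p.1.2 := by
        apply fwd_of_bk
        rw [Finset.mem_erase] at hp
        rcases mem_Em.mp hp.2 with h | ⟨i, _, rfl⟩
        · exact absurd h hp.1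
        · exact bk_fe i
      rw [mn_fwd (hfwd q hq), hq1, ← mn_fwd hpf, hpv] at h2
      omega
    · refine endgame hN (fun p hp _ => hfwd p hp) ?_ h
      intro h'
      simp at h'
  · -- deleted the forward pair `fe j`
    have hbeE : be n ∈ (Em n).erase (fe j) := by
      rw [Finset.mem_erase]
      refine ⟨?_, mem_Em.mpr (Or.inl rfl)⟩
      intro h
      have := congrArg (fun p : Idx => p.1.2) h
      simp only [be, fe] at this
      omega
    have h1 : nback (ind ((Em n).erase (fe j))) = 1 := by
      have hz : ∑ p ∈ ((Em n).erase (fe j)).erase (be n), bk p = 0 := by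
        apply Finset.sum_eq_zero
        intro p hp
        rw [Finset.mem_erase, Finset.mem_erase] at hp
        rcases mem_Em.mp hp.2.2 with h | ⟨i, _, rfl⟩
        · exact absurd h hp.1
        · exact bk_fe i
      rw [nback_ind, ← Finset.add_sum_erase _ _ hbeE, bk_be hn, hz]
    rw [h1] at hlt
    -- N has a backward pair
    have hb0 : nback N ≠ 0 := by
      intro hb
      have hfwd : ∀ p ∈ N.support, p.1.1 < p.1.2 := by
        intro p hp
        apply fwd_of_bk
        rw [nback_eq, Finset.sum_eq_zero_iff] at hb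
        have := hb p hp
        rw [fib_eq_one hE hN hp] at this
        omega
      set w : ℕ → ℤ := fun v => if v < 2 * j + 2 then 0 else if Even v then 1 else -2 with hw
      have hle : ev w (wt N) ≤ 0 := by
        rw [ev_wt]
        apply Finset.sum_nonpos
        intro p hp
        apply mul_nonpos_of_nonneg_of_nonpos (by positivity)
        have ha := fib_even hE hN hp
        have hb := Nat.not_even_iff_odd.mpr (fib_odd hE hN hp)
        have hc := hfwd p hp
        simp only [hw, ha, hb, if_true, if_false]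
        split_ifs <;> omega
      have hge : 2 ≤ ev w (wt (ind ((Em n).erase (fe j)))) := by
        rw [ev_wt, supp_ind, ← Finset.add_sum_erase _ _ hbeE]
        have ht : ((ind ((Em n).erase (fe j)) (be n) : ℕ) : ℤ) * (2 * w (be n).1.1 + w (be n).1.2) = 2 := by
          rw [ind_apply, if_pos hbeE]
          have e1 : w (be n).1.1 = 1 := by
            simp only [hw, be]
            rw [if_neg (by omega), if_pos (by simp)]
          have e2 : w (be n).1.2 = 0 := by
            simp only [hw, be]
            rw [if_pos (by omega)]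
          rw [e1, e2]; norm_num
        rw [ht]
        have : 0 ≤ ∑ p ∈ ((Em n).erase (fe j)).erase (be n),
            ((ind ((Em n).erase (fe j)) p : ℕ) : ℤ) * (2 * w p.1.1 + w p.1.2) := by
          apply Finset.sum_nonneg
          intro p hp
          apply mul_nonneg (by positivity)
          rw [Finset.mem_erase, Finset.mem_erase] at hp
          rcases mem_Em.mp hp.2.2 with h | ⟨i, _, rfl⟩
          · exact absurd h hp.1
          · have hij : i ≠ j := by rintro rfl; exact hp.2.1 rfl
            have ho : ¬ Even (2 * i + 3) := by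
              rw [Nat.not_even_iff_odd]; exact ⟨i + 1, by ring⟩
            simp only [hw, fe, ho, if_false, even_two, Even.mul_right, if_true]
            split_ifs <;> omega
        linarith
      rw [hN] at hle
      linarith
    have hb1 : nback N = 1 := by
      rcases hlt with h | ⟨h, _⟩
      · omega
      · exact h
    -- the unique backward pair
    have huniq : ∀ p ∈ N.support, ∀ q ∈ N.support, bk p ≠ 0 → bk q ≠ 0 → p = q := by
      intro p hp q hq hbp hbq
      by_contra hne
      rw [nback_eq, ← Finset.add_sum_erase _ _ hp,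
        ← Finset.add_sum_erase _ _ (Finset.mem_erase.mpr ⟨Ne.symm hne, hq⟩),
        fib_eq_one hE hN hp, fib_eq_one hE hN hq] at hb1
      omega
    have hlt' : toColex (mins N) < toColex (mins (ind ((Em n).erase (fe j)))) ∨
        mins N = mins (ind ((Em n).erase (fe j))) ∧
          toColex (edg N) < toColex (edg (ind ((Em n).erase (fe j)))) := by
      rcases hlt with h | ⟨_, h⟩
      · omega
      · exact h
    -- values of `mins` of the reference monomial
    have hm0 : ∀ v, mins (ind ((Em n).erase (fe j))) v ≠ 0 → v = 1 ∨ (Even v ∧ v < 2 * n) := by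
      intro v hv
      obtain ⟨p, hp, hpv⟩ := exists_of_mins_pos hv
      rw [mem_supp_ind, Finset.mem_erase] at hp
      rcases mem_Em.mp hp.2 with rfl | ⟨i, hi, rfl⟩
      · left
        rw [← hpv, mn_bwd]
        · rfl
        · simp only [be]; omega
      · right
        rw [hmnfe] at hpv
        rw [← hpv]
        exact ⟨by simp, by omega⟩
    -- the source 2n goes backward in N provided `mins N (2n) = 0`
    have key1 : mins N (2 * n) = 0 → ∃ q ∈ N.support, q.1.1 = 2 * n ∧ q.1.2 < q.1.1 := by
      intro h0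
      obtain ⟨q, hq, hq1⟩ := fib_exists_fst hE hN hbeE
      have hq1' : q.1.1 = 2 * n := hq1
      refine ⟨q, hq, hq1', ?_⟩
      by_contra hcon
      have hf : q.1.1 < q.1.2 := by have := q.2; omega
      have h2 := mins_pos hq
      rw [mn_fwd hf, hq1', h0] at h2
      omega
    rcases hlt' with h | ⟨hmeq, h⟩
    · rw [Finsupp.Colex.lt_iff] at h
      obtain ⟨v, hv1, hv⟩ := h
      change ∀ k, v < k → mins N k = mins (ind ((Em n).erase (fe j))) k at hv1
      change mins N v < mins (ind ((Em n).erase (fe j))) v at hv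
      have hle1 := mins_ind_le_one hn (fe j) v
      have hv0 : mins N v = 0 := by omega
      have hvn := hm0 v (by omega)
      have h2n : mins N (2 * n) = 0 := by
        rw [hv1 (2 * n) (by omega)]
        by_contra hcon
        have := hm0 _ hcon
        omega
      obtain ⟨q, hq, hq1, hqb⟩ := key1 h2n
      have hqbk : bk q ≠ 0 := by
        unfold bk; rw [if_pos hqb]; norm_num
      obtain ⟨p, hp, hpv⟩ := exists_of_mins_pos (a := ind ((Em n).erase (fe j))) (v := v) (by omega)
      rw [mem_supp_ind] at hp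
      rcases mem_Em.mp (Finset.mem_of_mem_erase hp) with rfl | ⟨i, hi, rfl⟩
      · -- v = 1
        have hv1' : v = 1 := by
          rw [← hpv, mn_bwd]
          · rfl
          · simp only [be]; omega
        have h3 := mins_pos hq
        rw [mn_bwd hqb] at h3
        rcases Nat.lt_or_ge 1 q.1.2 with h4 | h4
        · have h5 := hv1 q.1.2 (by omega)
          have h6 := hm0 q.1.2 (by omega)
          have h7 := fib_odd hE hN hq
          rcases h6 with h6 | ⟨h6, _⟩
          · omega
          · exact (Nat.not_even_iff_odd.mpr h7) h6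
        · have h7 := fib_odd hE hN hq
          obtain ⟨t, ht⟩ := h7
          have : q.1.2 = v := by omega
          rw [this] at h3
          omega
      · -- v = 2i
        rw [hmnfe] at hpv
        obtain ⟨r, hr, hr1⟩ := fib_exists_fst hE hN hp
        have hr1' : r.1.1 = 2 * i := hr1
        have h3 := mins_pos hr
        have hrf : r.1.1 < r.1.2 := by
          apply fwd_of_bk
          by_contra hcon
          have := huniq r hr q hq hcon hqbk
          rw [this] at hr1'
          omega
        rw [mn_fwd hrf, hr1', hpv] at h3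
        omega
    · -- mins agree
      have h2n : mins N (2 * n) = 0 := by
        rw [hmeq]
        by_contra hcon
        have := hm0 _ hcon
        omega
      obtain ⟨q, hq, hq1, hqb⟩ := key1 h2n
      have hqbk : bk q ≠ 0 := by
        unfold bk; rw [if_pos hqb]; norm_num
      have h3 := mins_pos hq
      rw [mn_bwd hqb, hmeq] at h3
      have h6 := hm0 q.1.2 (by omega)
      have h7 := fib_odd hE hN hq
      have hq2 : q.1.2 = 1 := by
        rcases h6 with h6 | ⟨h6, _⟩
        · exact h6
        · exact absurd h6 (Nat.not_even_iff_odd.mpr h7)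
      have hqbe : q = be n := by
        apply Subtype.ext
        exact Prod.ext hq1 hq2
      subst hqbe
      refine endgame hN ?_ (fun _ => hq) h
      intro p hp hpne
      apply fwd_of_bk
      by_contra hcon
      exact hpne (huniq p hp (be n) hq hcon hqbk)


/-! ### The map `φ_f` for `f = s^2 t` -/

/-- `f = s^2 t` -/
noncomputable def f0 : MvPolynomial (Fin 2) ℂ := X 0 ^ 2 * X 1

lemma phi_X (p : Idx) : phi f0 (X p) = monomial (pw p) 1 := by
  unfold phi f0
  rw [aeval_X]
  simp only [map_mul, map_pow, aeval_X, Matrix.cons_val_zero, Matrix.cons_val_one]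
  unfold pw
  rw [X_pow_eq_monomial, X, monomial_mul, one_mul]

lemma phi_monomial (a : Idx →₀ ℕ) (c : ℂ) : phi f0 (monomial a c) = monomial (wt a) c := by
  rw [monomial_eq, map_mul, Finsupp.prod, map_prod]
  have h1 : phi f0 (C c) = C c := by
    have := (phi f0).commutes c
    rwa [algebraMap_eq, algebraMap_eq] at this
  rw [h1]
  have h2 : ∏ p ∈ a.support, phi f0 (X p ^ a p) = monomial (wt a) (1 : ℂ) := by
    have : ∀ p ∈ a.support, phi f0 (X p ^ a p) = monomial (a p • pw p) (1 : ℂ) := by
      intro p _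
      rw [map_pow, phi_X, monomial_pow, one_pow]
    rw [Finset.prod_congr rfl this, wt_eq_sum, Finsupp.sum, monomial_sum_one]
  rw [h2, C_mul_monomial, mul_one]

lemma mem_ker (p : R) : p ∈ kerPhi f0 ↔ phi f0 p = 0 := RingHom.mem_ker

lemma phi_eq_sum (p : R) : phi f0 p = ∑ a ∈ p.support, monomial (wt a) (coeff a p) := by
  conv_lhs => rw [p.as_sum]
  rw [map_sum]
  apply Finset.sum_congr rfl
  intro a _
  exact phi_monomial a _

lemma phi_rename (ρ : ℕ → ℕ) (hρ : Function.Injective ρ) (p : R) :
    phi f0 (rename (act ρ hρ) p) = rename ρ (phi f0 p) := by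
  have : ((phi f0).comp (rename (act ρ hρ))) = ((rename ρ).comp (phi f0)) := by
    apply MvPolynomial.algHom_ext
    intro q
    simp only [AlgHom.comp_apply, rename_X]
    rw [phi_X, phi_X, rename_monomial]
    congr 1
    unfold pw
    rw [Finsupp.mapDomain_add, Finsupp.mapDomain_single, Finsupp.mapDomain_single]
    rfl
  exact congrArg (fun g => g p) this

lemma ker_rename {ρ : ℕ → ℕ} (hρ : Function.Injective ρ) {p : R} (hp : p ∈ kerPhi f0) :
    rename (act ρ hρ) p ∈ kerPhi f0 := by
  rw [mem_ker] at hp ⊢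
  rw [phi_rename, hp, map_zero]

/-- a nonzero element of the kernel whose leading monomial is `b` has another monomial in the
same fibre, which is smaller. -/
lemma exists_smaller (m : MonomialOrder Idx) {p : R} (hp : p ∈ kerPhi f0) (h0 : p ≠ 0) :
    ∃ N : Idx →₀ ℕ, wt N = wt (m.degree p) ∧ m.toSyn N < m.toSyn (m.degree p) := by
  by_contra hcon
  push Not at hcon
  rw [mem_ker, phi_eq_sum] at hp
  have h1 := congrArg (coeff (wt (m.degree p))) hp
  rw [coeff_sum, coeff_zero, Finset.sum_eq_single (m.degree p)] at h1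
  · rw [coeff_monomial, if_pos rfl] at h1
    exact (m.coeff_degree_ne_zero_iff.mpr h0) h1
  · intro b hb hne
    rw [coeff_monomial, if_neg]
    intro hw
    have h2 := hcon b hw
    have h3 := m.le_degree hb
    exact hne (m.toSyn.injective (le_antisymm h3 h2))
  · intro h
    exact absurd ((m.degree_mem_support_iff p).mpr h0) h

/-- The good monomial in the fibre of the bad one. -/
noncomputable def goodM (n : ℕ) : Idx →₀ ℕ := ind ((Finset.range (n + 1)).image ae)

lemma ae_inj : Function.Injective ae := by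
  intro i j h
  have := congrArg (fun p : Idx => p.1.1) h
  simp only [ae] at this
  omega

lemma fe_inj : Function.Injective fe := by
  intro i j h
  have := congrArg (fun p : Idx => p.1.1) h
  simp only [fe] at this
  omega

lemma wt_ind (E : Finset Idx) : wt (ind E) = ∑ p ∈ E, pw p := by
  unfold ind
  rw [map_sum]
  apply Finset.sum_congr rfl
  intro p _
  rw [wt_single, one_smul]

lemma be_notin (n : ℕ) : be n ∉ (Finset.range n).image fe := by
  rw [Finset.mem_image]
  rintro ⟨i, _, h⟩
  have := congrArg (fun p : Idx => p.1.2) h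
  simp only [be, fe] at this
  omega

lemma wt_bad (n : ℕ) : wt (ind (Em n)) = wt (goodM n) := by
  rw [goodM, wt_ind, wt_ind, Em, Finset.sum_insert (be_notin n),
    Finset.sum_image (fun i _ j _ h => fe_inj h), Finset.sum_image (fun i _ j _ h => ae_inj h)]
  induction n with
  | zero => simp [pw, be, ae]
  | succ n ih =>
    rw [Finset.sum_range_succ, Finset.sum_range_succ _ (n + 1), ← ih]
    simp only [pw, be, ae, fe]
    have e1 : 2 * n + 3 = 2 * (n + 1) + 1 := by ring
    rw [e1]
    abel

lemma nback_good (n : ℕ) : nback (goodM n) = 0 := by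
  rw [goodM, nback_ind]
  apply Finset.sum_eq_zero
  intro p hp
  rw [Finset.mem_image] at hp
  obtain ⟨i, _, rfl⟩ := hp
  exact bk_ae i

lemma good_lt_bad {n : ℕ} (hn : 1 ≤ n) : key (goodM n) < key (ind (Em n)) := by
  rw [key_lt_iff]
  left
  rw [nback_good, nback_ind]
  have : be n ∈ Em n := mem_Em.mpr (Or.inl rfl)
  rw [← Finset.add_sum_erase _ _ this, bk_be hn]
  omega

lemma bad_mem_initial {n : ℕ} (hn : 1 ≤ n) :
    monomial (ind (Em n)) (1 : ℂ) ∈ initialIdeal badOrder (kerPhi f0) := by
  apply Ideal.subset_span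
  have hlt : badOrder.toSyn (goodM n) < badOrder.toSyn (ind (Em n)) := good_lt_bad hn
  have hne : goodM n ≠ ind (Em n) := by
    intro h
    rw [h] at hlt
    exact lt_irrefl _ hlt
  refine ⟨monomial (ind (Em n)) 1 - monomial (goodM n) 1, ?_, ?_, ?_⟩
  · rw [mem_ker, map_sub, phi_monomial, phi_monomial, wt_bad, sub_self]
  · intro h
    have h1 := congrArg (coeff (ind (Em n))) h
    rw [coeff_sub, coeff_monomial, coeff_monomial, if_pos rfl, if_neg hne] at h1
    norm_num at h1
  · congr 1
    rw [sub_eq_add_neg, ← map_neg]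
    rw [badOrder.degree_add_of_lt]
    · rw [badOrder.degree_monomial, if_neg one_ne_zero]
    · rw [badOrder.degree_monomial, if_neg (by norm_num), badOrder.degree_monomial,
        if_neg one_ne_zero]
      exact hlt

lemma ind_erase_add {E : Finset Idx} {e : Idx} (he : e ∈ E) :
    ind (E.erase e) + Finsupp.single e 1 = ind E := by
  unfold ind
  rw [Finset.sum_erase_add _ _ he]

lemma degree_ind (E : Finset Idx) : (ind E).degree = E.card := by
  unfold ind
  rw [map_sum, Finset.card_eq_sum_ones]
  apply Finset.sum_congr rfl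
  intro p _
  rw [Finsupp.degree_single]

lemma card_Em (n : ℕ) : (Em n).card = n + 1 := by
  rw [Em, Finset.card_insert_of_notMem (be_notin n), Finset.card_image_of_injective _ fe_inj,
    Finset.card_range]

/-- **No finite equivariant Groebner basis.** -/
theorem no_finite_EGB (G : Set R) (hG : G.Finite) : ¬ IsEGB badOrder (kerPhi f0) G := by
  rintro ⟨hsub, hspan⟩
  -- bound on the total degrees
  obtain ⟨d, hd⟩ : ∃ d : ℕ, ∀ g ∈ G, g.totalDegree ≤ d := by
    refine ⟨hG.toFinset.sup totalDegree, ?_⟩
    intro g hg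
    exact Finset.le_sup (f := totalDegree) (hG.mem_toFinset.mpr hg)
  have hmem := bad_mem_initial (n := d + 1) (by omega)
  rw [← hspan] at hmem
  set S : Set (Idx →₀ ℕ) := {s | ∃ (ρ : ℕ → ℕ) (hρ : StrictMono ρ), ∃ g ∈ G, g ≠ 0 ∧
      s = badOrder.degree (rename (act ρ hρ.injective) g)} with hS
  have himg : {q : R | ∃ (ρ : ℕ → ℕ) (hρ : StrictMono ρ), ∃ g ∈ G, g ≠ 0 ∧
      q = monomial (badOrder.degree (rename (act ρ hρ.injective) g)) 1} =
      ((fun s => monomial s (1 : ℂ)) '' S) := by
    ext q
    constructor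
    · rintro ⟨ρ, hρ, g, hg, hg0, rfl⟩
      exact ⟨_, ⟨ρ, hρ, g, hg, hg0, rfl⟩, rfl⟩
    · rintro ⟨s, ⟨ρ, hρ, g, hg, hg0, rfl⟩, rfl⟩
      exact ⟨ρ, hρ, g, hg, hg0, rfl⟩
  rw [himg, mem_ideal_span_monomial_image] at hmem
  obtain ⟨s, ⟨ρ, hρ, g, hg, hg0, rfl⟩, hle⟩ := hmem (ind (Em (d + 1))) (by
    rw [support_monomial, if_neg one_ne_zero]; simp)
  set h := rename (act ρ hρ.injective) g with hh
  have hh0 : h ≠ 0 := by
    intro h0
    rw [hh] at h0
    exact hg0 ((rename_injective _ (act_inj _ _)) (by rw [h0, map_zero]))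
  have hhk : h ∈ kerPhi f0 := ker_rename _ (hsub hg)
  -- degree bound
  have hdeg : (badOrder.degree h).degree ≤ d := by
    have h1 : (badOrder.degree h).degree ≤ h.totalDegree := by
      have := le_totalDegree ((badOrder.degree_mem_support_iff h).mpr hh0)
      rw [Finsupp.degree_apply]
      exact this
    have h2 : h.totalDegree ≤ g.totalDegree := totalDegree_rename_le _ _
    exact h1.trans (h2.trans (hd g hg))
  obtain ⟨c, hc⟩ := exists_add_of_le hle
  have hc0 : c ≠ 0 := by
    rintro rfl
    have := congrArg Finsupp.degree hc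
    rw [degree_ind, card_Em, add_zero] at this
    omega
  obtain ⟨e, he⟩ := Finsupp.support_nonempty_iff.mpr hc0
  have hce : Finsupp.single e 1 ≤ c := single_le he
  obtain ⟨c', rfl⟩ := exists_add_of_le hce
  have heE : e ∈ Em (d + 1) := by
    rw [← mem_supp_ind, Finsupp.mem_support_iff, hc, Finsupp.add_apply, Finsupp.add_apply,
      Finsupp.single_eq_same]
    omega
  have hN0 : ind ((Em (d + 1)).erase e) = c' + badOrder.degree h := by
    have h1 := ind_erase_add heE
    rw [hc] at h1
    have : ind ((Em (d + 1)).erase e) + Finsupp.single e 1 =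
        (c' + badOrder.degree h) + Finsupp.single e 1 := by
      rw [h1]; abel
    exact add_right_cancel this
  -- the multiple of h
  have hp' : monomial c' (1 : ℂ) * h ∈ kerPhi f0 := Ideal.mul_mem_left _ _ hhk
  have hm0 : (monomial c' (1 : ℂ) : R) ≠ 0 := by
    rw [Ne, monomial_eq_zero]; exact one_ne_zero
  have hp0 : monomial c' (1 : ℂ) * h ≠ 0 := mul_ne_zero hm0 hh0
  have hdegp : badOrder.degree (monomial c' (1 : ℂ) * h) = ind ((Em (d + 1)).erase e) := by
    rw [badOrder.degree_mul hm0 hh0, badOrder.degree_monomial, if_neg one_ne_zero, hN0]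
  obtain ⟨N, hN1, hN2⟩ := exists_smaller badOrder hp' hp0
  rw [hdegp] at hN1 hN2
  have := minimal_fibre (n := d + 1) (by omega) heE hN1
  rw [bad_lt] at hN2
  exact absurd hN2 (not_lt.mpr this)


/-! ### Finite generation up to symmetry -/

/-- one variable as an exponent vector -/
noncomputable def sv (x y : ℕ) (h : x ≠ y) : Idx →₀ ℕ := Finsupp.single ⟨(x, y), h⟩ 1

lemma wt_sv {x y : ℕ} (h : x ≠ y) :
    wt (sv x y h) = Finsupp.single x 2 + Finsupp.single y 1 := by
  unfold sv
  rw [wt_single, one_smul]
  rfl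

lemma deg_sv {x y : ℕ} (h : x ≠ y) : (sv x y h).degree = 1 := by
  unfold sv
  rw [Finsupp.degree_single]

/-- splitting off a variable -/
lemma split_of_mem {a : Idx →₀ ℕ} {p : Idx} (hp : p ∈ a.support) :
    ∃ c, a = sv p.1.1 p.1.2 p.2 + c :=
  exists_add_of_le (single_le hp)

lemma exists_in_of_odd {a : Idx →₀ ℕ} {v : ℕ} (h : Odd (wt a v)) :
    ∃ x, ∃ hx : x ≠ v, ∃ c, a = sv x v hx + c := by
  by_contra hcon
  have h1 : ∀ p ∈ a.support, p.1.2 ≠ v := by
    intro p hp hpv
    apply hcon
    obtain ⟨c, hc⟩ := split_of_mem hp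
    subst hpv
    exact ⟨p.1.1, p.2, c, hc⟩
  rw [wt_apply] at h
  have h2 : ∀ p ∈ a.support, Even (a p * ((if p.1.1 = v then 2 else 0) +
      (if p.1.2 = v then 1 else 0))) := by
    intro p hp
    rw [if_neg (h1 p hp)]
    split_ifs <;> simp
  exact (Nat.not_even_iff_odd.mpr h) (Finset.even_sum _ h2)

lemma exists_inc_of_pos {a : Idx →₀ ℕ} {v : ℕ} (h : 1 ≤ wt a v) :
    (∃ x, ∃ hx : x ≠ v, ∃ c, a = sv x v hx + c) ∨ (∃ x, ∃ hx : v ≠ x, ∃ c, a = sv v x hx + c) := by
  obtain ⟨p, hp, hpv | hpv⟩ := exists_of_wt_pos h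
  · right
    obtain ⟨c, hc⟩ := split_of_mem hp
    subst hpv
    exact ⟨p.1.2, p.2, c, hc⟩
  · left
    obtain ⟨c, hc⟩ := split_of_mem hp
    subst hpv
    exact ⟨p.1.1, p.2, c, hc⟩

/-- the distinguished pair attached to a multidegree -/
structure Good (D : ℕ →₀ ℕ) (w v : ℕ) : Prop where
  ne : w ≠ v
  max : ∀ x, D x ≤ D w
  pos : 1 ≤ D v
  par : Odd (D v) ∨ ∀ x, x ≠ w → Even (D x)

lemma exists_good {a : Idx →₀ ℕ} (ha : a ≠ 0) : ∃ w v, Good (wt a) w v := by
  obtain ⟨p, hp⟩ := Finsupp.support_nonempty_iff.mpr ha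
  have h1 := wt_mono (single_le hp)
  rw [wt_single, one_smul] at h1
  have hp1 : 2 ≤ wt a p.1.1 := by
    have := h1 p.1.1
    simp [pw, Finsupp.single_apply] at this
    omega
  have hp2 : 1 ≤ wt a p.1.2 := by
    have := h1 p.1.2
    simp [pw, Finsupp.single_apply] at this
    omega
  have hne : (wt a).support.Nonempty := ⟨p.1.1, by rw [Finsupp.mem_support_iff]; omega⟩
  obtain ⟨w, hw, hmax⟩ := Finset.exists_max_image (wt a).support (wt a) hne
  have hmax' : ∀ x, wt a x ≤ wt a w := by
    intro x
    by_cases hx : x ∈ (wt a).support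
    · exact hmax x hx
    · rw [Finsupp.notMem_support_iff] at hx
      rw [hx]; exact Nat.zero_le _
  by_cases hodd : ∃ v, v ≠ w ∧ Odd (wt a v)
  · obtain ⟨v, hv, hv2⟩ := hodd
    exact ⟨w, v, hv.symm, hmax', hv2.pos, Or.inl hv2⟩
  · push Not at hodd
    have hpar : ∀ x, x ≠ w → Even (wt a x) := fun x hx => by
      have := hodd x hx
      rwa [Nat.not_odd_iff_even] at this
    by_cases h : p.1.1 = w
    · refine ⟨w, p.1.2, ?_, hmax', hp2, Or.inr hpar⟩
      rw [← h]; exact p.2
    · exact ⟨w, p.1.1, Ne.symm h, hmax', by omega, Or.inr hpar⟩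

/-- The small-move lemma. -/
lemma move {a : Idx →₀ ℕ} {w v : ℕ} (hG : Good (wt a) w v) :
    ∃ a1 b1 c b' : Idx →₀ ℕ, a = a1 + c ∧ a1.degree ≤ 3 ∧ wt a1 = wt b1 ∧
      b1 = sv w v hG.ne + b' := by
  by_cases hwv : ∃ c, a = sv w v hG.ne + c
  · obtain ⟨c, hc⟩ := hwv
    exact ⟨sv w v hG.ne, sv w v hG.ne, c, 0, hc, by rw [deg_sv]; norm_num, rfl, by simp⟩
  by_cases hA : ∃ x, ∃ hx : w ≠ x, ∃ c, a = sv w x hx + c
  · -- Case A
    obtain ⟨x, hx, c1, rfl⟩ := hA
    have hxv : x ≠ v := by
      rintro rfl
      exact hwv ⟨c1, rfl⟩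
    by_cases hin : ∃ z, ∃ hz : z ≠ v, ∃ c, c1 = sv z v hz + c
    · obtain ⟨z, hz, c2, rfl⟩ := hin
      have hzw : z ≠ w := by
        rintro rfl
        exact hwv ⟨sv z x hx + c2, by abel⟩
      by_cases hzx : z = x
      · subst hzx
        by_cases hfar : ∃ p ∈ c2.support, p.1.1 ≠ z ∧ p.1.2 ≠ z
        · obtain ⟨⟨⟨p, q⟩, hpq⟩, hp, hp1, hp2⟩ := hfar
          simp only at hp1 hp2 hpq
          obtain ⟨c3, rfl⟩ := split_of_mem hp
          simp only
          refine ⟨sv w z hx + sv z v hz + sv p q hpq, sv w v hG.ne + (sv z q hp2.symm + sv p z hp1),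
            c3, sv z q hp2.symm + sv p z hp1, by abel, ?_, ?_, rfl⟩
          · simp only [map_add, deg_sv]; norm_num
          · simp only [map_add, wt_sv]
            have : (Finsupp.single z 2 : ℕ →₀ ℕ) = Finsupp.single z 1 + Finsupp.single z 1 := by
              rw [← Finsupp.single_add]
            abel
        · push Not at hfar
          -- all pairs are incident to z
          have hmem : (⟨(w, z), hx⟩ : Idx) ∈ c2.support := by
            by_contra hcon
            have hle : wt c2 w ≤ wt c2 z := by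
              rw [wt_apply, wt_apply]
              apply Finset.sum_le_sum
              intro p hp
              apply Nat.mul_le_mul_left
              have h1 := hfar p hp
              have h2 : p ≠ ⟨(w, z), hx⟩ := by
                rintro rfl
                exact hcon hp
              by_cases h3 : p.1.1 = z
              · rw [if_pos h3, if_neg (by rw [h3]; exact hzw)]
                split_ifs <;> omega
              · have h4 : p.1.2 = z := by
                  by_contra h5
                  exact h5 (h1 h3)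
                have h5 : p.1.1 ≠ w := by
                  intro h6
                  apply h2
                  apply Subtype.ext
                  exact Prod.ext h6 h4
                rw [if_neg h5, if_neg (by rw [h4]; exact hzw)]
                omega
            have h1 := hG.max z
            simp only [map_add, wt_sv, Finsupp.add_apply, Finsupp.single_apply] at h1
            simp only [hG.ne.symm, hx.symm, hx, hz.symm, if_true, if_false] at h1
            omega
          obtain ⟨c3, rfl⟩ := split_of_mem hmem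
          simp only
          refine ⟨sv w z hx + sv w z hx + sv z v hz,
            sv w v hG.ne + (sv z w hzw + sv z w hzw), c3, sv z w hzw + sv z w hzw, by abel, ?_, ?_, rfl⟩
          · simp only [map_add, deg_sv]; norm_num
          · simp only [map_add, wt_sv]
            have e1 : (Finsupp.single z 2 : ℕ →₀ ℕ) = Finsupp.single z 1 + Finsupp.single z 1 := by
              rw [← Finsupp.single_add]
            have e2 : (Finsupp.single w 2 : ℕ →₀ ℕ) = Finsupp.single w 1 + Finsupp.single w 1 := by
              rw [← Finsupp.single_add]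
            rw [e1, e2]
            abel
      · refine ⟨sv w x hx + sv z v hz, sv w v hG.ne + sv z x hzx, c2, sv z x hzx, by abel, ?_, ?_, rfl⟩
        · simp only [map_add, deg_sv]; norm_num
        · simp only [map_add, wt_sv]
          abel
    · -- no pair into v
      have hnoin : ¬ ∃ z, ∃ hz : z ≠ v, ∃ c, sv w x hx + c1 = sv z v hz + c := by
        rintro ⟨z, hz, c, hc⟩
        apply hin
        have h1 : (⟨(z, v), hz⟩ : Idx) ∈ c1.support := by
          rw [Finsupp.mem_support_iff]
          have h2 := congrArg (fun f => f (⟨(z, v), hz⟩ : Idx)) hc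
          simp only [sv, Finsupp.add_apply, Finsupp.single_eq_same] at h2
          rw [Finsupp.single_apply, if_neg] at h2
          · omega
          · intro h3
            have := congrArg (fun p : Idx => p.1.2) h3
            simp only at this
            exact hxv this
        obtain ⟨c, hc⟩ := split_of_mem h1
        exact ⟨z, hz, c, hc⟩
      have heven : ∀ y, y ≠ w → Even (wt (sv w x hx + c1) y) := by
        rcases hG.par with h | h
        · exact absurd (exists_in_of_odd h) hnoin
        · exact h
      have hc1v : 1 ≤ wt c1 v := by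
        have := hG.pos
        simp only [map_add, wt_sv, Finsupp.add_apply, Finsupp.single_apply] at this
        simp only [hG.ne, hxv, if_false] at this
        omega
      rcases exists_inc_of_pos hc1v with h | ⟨y, hy, c2, rfl⟩
      · exact absurd h hin
      · by_cases hyx : y = x
        · subst hyx
          refine ⟨sv w y hx + sv v y hy, sv w v hG.ne + sv y v hy.symm, c2, sv y v hy.symm, by abel,
            ?_, ?_, rfl⟩
          · simp only [map_add, deg_sv]; norm_num
          · simp only [map_add, wt_sv]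
            have e1 : (Finsupp.single y 2 : ℕ →₀ ℕ) = Finsupp.single y 1 + Finsupp.single y 1 := by
              rw [← Finsupp.single_add]
            have e2 : (Finsupp.single v 2 : ℕ →₀ ℕ) = Finsupp.single v 1 + Finsupp.single v 1 := by
              rw [← Finsupp.single_add]
            rw [e1, e2]
            abel
        · have h1 := heven x hx.symm
          have hodd : Odd (wt c2 x) := by
            simp only [map_add, wt_sv, Finsupp.add_apply, Finsupp.single_apply] at h1
            simp only [hx, hxv.symm, hyx, if_true, if_false] at h1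
            rw [← Nat.not_even_iff_odd]
            intro h2
            have h3 : Even (1 : ℕ) := by
              have h4 : 0 + 1 + (0 + 0 + (wt c2) x) = 1 + wt c2 x := by ring
              rw [h4] at h1
              exact (Nat.even_add.mp h1).mpr h2
            exact absurd h3 (by decide)
          obtain ⟨p, hp, c3, rfl⟩ := exists_in_of_odd hodd
          by_cases hpv : p = v
          · subst hpv
            refine ⟨sv w x hx + sv p x hp, sv w p hG.ne + sv x p hxv, sv p y hy + c3, sv x p hxv,
              by abel, ?_, ?_, rfl⟩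
            · simp only [map_add, deg_sv]; norm_num
            · simp only [map_add, wt_sv]
              have e1 : (Finsupp.single x 2 : ℕ →₀ ℕ) = Finsupp.single x 1 + Finsupp.single x 1 := by
                rw [← Finsupp.single_add]
              have e2 : (Finsupp.single p 2 : ℕ →₀ ℕ) = Finsupp.single p 1 + Finsupp.single p 1 := by
                rw [← Finsupp.single_add]
              rw [e1, e2]
              abel
          · refine ⟨sv w x hx + sv p x hp + sv v y hy,
              sv w v hG.ne + (sv p v hpv + sv x y (Ne.symm hyx)), c3,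
              sv p v hpv + sv x y (Ne.symm hyx), by abel, ?_, ?_, rfl⟩
            · simp only [map_add, deg_sv]; norm_num
            · simp only [map_add, wt_sv]
              have e1 : (Finsupp.single x 2 : ℕ →₀ ℕ) = Finsupp.single x 1 + Finsupp.single x 1 := by
                rw [← Finsupp.single_add]
              have e2 : (Finsupp.single v 2 : ℕ →₀ ℕ) = Finsupp.single v 1 + Finsupp.single v 1 := by
                rw [← Finsupp.single_add]
              rw [e1, e2]
              abel
  · -- Case B: no pair out of w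
    have hnoout : ∀ p ∈ a.support, p.1.1 ≠ w := by
      intro p hp h
      apply hA
      obtain ⟨c, hc⟩ := split_of_mem hp
      subst h
      exact ⟨p.1.2, p.2, c, hc⟩
    have hwpos : 1 ≤ wt a w := hG.pos.trans (hG.max v)
    rcases exists_inc_of_pos hwpos with ⟨z1, hz1, c1, hc1⟩ | h
    swap
    · exact absurd h hA
    have hz1mem : (⟨(z1, w), hz1⟩ : Idx) ∈ a.support := by
      rw [Finsupp.mem_support_iff, hc1]
      simp [sv]
    -- second in-neighbour
    have hex : ∃ p ∈ a.support, p.1.2 = w ∧ p.1.1 ≠ z1 := by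
      by_contra hcon
      push Not at hcon
      have hle : 2 * wt a w ≤ wt a z1 := by
        rw [wt_apply, wt_apply, Finset.mul_sum]
        apply Finset.sum_le_sum
        intro p hp
        rw [if_neg (hnoout p hp)]
        by_cases h2 : p.1.2 = w
        · rw [if_pos h2, if_pos (hcon p hp h2)]
          have : 0 ≤ a p * (if p.1.2 = z1 then 1 else 0) := Nat.zero_le _
          nlinarith
        · rw [if_neg h2]
          simp
      have := hG.max z1
      omega
    obtain ⟨⟨⟨z2, w'⟩, hz2⟩, hp2, hw', hz12⟩ := hex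
    simp only at hw' hz12 hz2
    subst hw'
    have hp2c : (⟨(z2, w'), hz2⟩ : Idx) ∈ c1.support := by
      rw [Finsupp.mem_support_iff] at hp2 ⊢
      rw [hc1, Finsupp.add_apply] at hp2
      simp only [sv] at hp2
      rw [Finsupp.single_apply, if_neg] at hp2
      · simpa using hp2
      · intro h
        have := congrArg (fun p : Idx => p.1.1) h
        simp only at this
        exact hz12 this.symm
    obtain ⟨c2, hc2⟩ := split_of_mem hp2c
    simp only at hc2
    subst hc2
    subst hc1
    have e1 : ∀ y : ℕ, (Finsupp.single y 2 : ℕ →₀ ℕ) = Finsupp.single y 1 + Finsupp.single y 1 := by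
      intro y
      rw [← Finsupp.single_add]
    by_cases h1v : z1 = v
    · subst h1v
      refine ⟨sv z1 w' hz1 + sv z2 w' hz2, sv w' z1 hG.ne + sv z2 z1 hz12, c2, sv z2 z1 hz12,
        by abel, ?_, ?_, rfl⟩
      · simp only [map_add, deg_sv]; norm_num
      · simp only [map_add, wt_sv, e1]
        abel
    by_cases h2v : z2 = v
    · subst h2v
      refine ⟨sv z1 w' hz1 + sv z2 w' hz2, sv w' z2 hG.ne + sv z1 z2 hz12.symm, c2,
        sv z1 z2 hz12.symm, by abel, ?_, ?_, rfl⟩
      · simp only [map_add, deg_sv]; norm_num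
      · simp only [map_add, wt_sv, e1]
        abel
    have hc2v : 1 ≤ wt c2 v := by
      have := hG.pos
      simp only [map_add, wt_sv, Finsupp.add_apply, Finsupp.single_apply] at this
      simp only [hG.ne, h1v, h2v, if_false] at this
      omega
    rcases exists_inc_of_pos hc2v with ⟨x, hx, c3, rfl⟩ | ⟨x, hx, c3, rfl⟩
    · by_cases hx2 : x = z2
      · subst hx2
        refine ⟨sv z1 w' hz1 + sv x w' hz2 + sv x v hx,
          sv w' v hG.ne + (sv x z1 hz12 + sv x z1 hz12), c3, sv x z1 hz12 + sv x z1 hz12,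
          by abel, ?_, ?_, rfl⟩
        · simp only [map_add, deg_sv]; norm_num
        · simp only [map_add, wt_sv, e1]
          abel
      · refine ⟨sv z1 w' hz1 + sv z2 w' hz2 + sv x v hx,
          sv w' v hG.ne + (sv z1 z2 hz12.symm + sv x z2 hx2), c3,
          sv z1 z2 hz12.symm + sv x z2 hx2, by abel, ?_, ?_, rfl⟩
        · simp only [map_add, deg_sv]; norm_num
        · simp only [map_add, wt_sv, e1]
          abel
    · by_cases hxw : x = w'
      · subst hxw
        refine ⟨sv z1 x hz1 + sv v x hx, sv x v hG.ne + sv z1 v h1v, sv z2 x hz2 + c3,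
          sv z1 v h1v, by abel, ?_, ?_, rfl⟩
        · simp only [map_add, deg_sv]; norm_num
        · simp only [map_add, wt_sv, e1]
          abel
      by_cases hx2 : z2 = x
      · subst hx2
        refine ⟨sv z1 w' hz1 + sv z2 w' hz2 + sv v z2 hx,
          sv w' v hG.ne + (sv z1 z2 hz12.symm + sv z2 v h2v), c3,
          sv z1 z2 hz12.symm + sv z2 v h2v, by abel, ?_, ?_, rfl⟩
        · simp only [map_add, deg_sv]; norm_num
        · simp only [map_add, wt_sv, e1]
          abel
      · refine ⟨sv z1 w' hz1 + sv z2 w' hz2 + sv v x hx,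
          sv w' v hG.ne + (sv z1 v h1v + sv z2 x hx2), c3,
          sv z1 v h1v + sv z2 x hx2, by abel, ?_, ?_, rfl⟩
        · simp only [map_add, deg_sv]; norm_num
        · simp only [map_add, wt_sv, e1]
          abel


/-- every finite set of vertices can be moved into an initial segment by a finitary permutation -/
lemma exists_perm (V : Finset ℕ) : ∃ σ : Equiv.Perm ℕ, {i | σ i ≠ i}.Finite ∧
    ∀ v ∈ V, σ v < V.card := by
  induction V using Finset.induction_on with
  | empty => exact ⟨1, by simp, by simp⟩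
  | insert x V hx ih =>
    obtain ⟨σ, hσ, hV⟩ := ih
    refine ⟨Equiv.swap (σ x) V.card * σ, ?_, ?_⟩
    · apply Set.Finite.subset (hσ.union (Set.Finite.preimage σ.injective.injOn
        (Set.toFinite ({σ x, V.card} : Set ℕ))))
      intro i hi
      simp only [Set.mem_ofPred_eq, Equiv.Perm.mul_apply] at hi
      by_cases h1 : σ i ≠ i
      · exact Or.inl h1
      · right
        simp only [Set.mem_preimage, Set.mem_insert_iff, Set.mem_singleton_iff]
        by_contra h2
        push Not at h2
        apply hi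
        rw [Equiv.swap_apply_of_ne_of_ne h2.1 h2.2]
        exact not_not.mp h1
    · intro v hv
      rw [Finset.card_insert_of_notMem hx]
      rw [Finset.mem_insert] at hv
      rw [Equiv.Perm.mul_apply]
      rcases hv with rfl | hv
      · rw [Equiv.swap_apply_left]; omega
      · have h1 := hV v hv
        rw [Equiv.swap_apply_of_ne_of_ne]
        · omega
        · intro h2
          have := σ.injective h2
          subst this
          exact hx hv
        · omega

/-- pairs with both entries below 6 -/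
def P6 : Finset Idx :=
  (Finset.range 6 ×ˢ Finset.range 6).subtype (fun p => p.1 ≠ p.2)

lemma mem_P6 (p : Idx) : p ∈ P6 ↔ p.1.1 < 6 ∧ p.1.2 < 6 := by
  simp [P6]

/-- the bounding exponent vector -/
noncomputable def bnd : Idx →₀ ℕ := 3 • ind P6

/-- the finite set of generators -/
noncomputable def genF : Set R :=
  {q | ∃ a b : Idx →₀ ℕ, a ≤ bnd ∧ b ≤ bnd ∧ wt a = wt b ∧ q = monomial a 1 - monomial b 1}

lemma genF_finite : genF.Finite := by
  apply Set.Finite.subset (((Set.finite_Iic bnd).prod (Set.finite_Iic bnd)).image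
    (fun x : (Idx →₀ ℕ) × (Idx →₀ ℕ) => (monomial x.1 (1 : ℂ) - monomial x.2 1 : R)))
  rintro q ⟨a, b, ha, hb, _, rfl⟩
  exact ⟨(a, b), ⟨ha, hb⟩, rfl⟩

/-- the ideal generated by the orbits -/
noncomputable def J : Ideal R :=
  Ideal.span {q : R | ∃ σ : Equiv.Perm ℕ, {i | σ i ≠ i}.Finite ∧
      ∃ h ∈ genF, q = rename (act σ σ.injective) h}

lemma genF_sub : genF ⊆ kerPhi f0 := by
  rintro q ⟨a, b, _, _, hab, rfl⟩
  change _ ∈ kerPhi f0
  rw [mem_ker, map_sub, phi_monomial, phi_monomial, hab, sub_self]

lemma J_le : J ≤ kerPhi f0 := by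
  unfold J
  rw [Ideal.span_le]
  rintro q ⟨σ, _, h, hh, rfl⟩
  exact ker_rename σ.injective (genF_sub hh)

lemma wt_degree (a : Idx →₀ ℕ) : (wt a).degree = 3 * a.degree := by
  induction a using Finsupp.induction_linear with
  | zero => simp
  | add f g hf hg => simp only [map_add, hf, hg]; ring
  | single p n =>
    rw [wt_single, Finsupp.degree_single, map_nsmul]
    unfold pw
    rw [map_add, Finsupp.degree_single, Finsupp.degree_single]
    simp; ring

lemma le_bnd {a : Idx →₀ ℕ} (h1 : a.degree ≤ 3) (h2 : ∀ p ∈ a.support, p.1.1 < 6 ∧ p.1.2 < 6) :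
    a ≤ bnd := by
  intro p
  by_cases hp : p ∈ a.support
  · unfold bnd
    rw [Finsupp.smul_apply, ind_apply, if_pos ((mem_P6 p).mpr (h2 p hp))]
    have : a p ≤ a.degree := Finsupp.le_degree p a
    simp; omega
  · rw [Finsupp.notMem_support_iff] at hp
    rw [hp]; exact Nat.zero_le _

lemma mem_wt_support {a : Idx →₀ ℕ} {p : Idx} (hp : p ∈ a.support) :
    p.1.1 ∈ (wt a).support ∧ p.1.2 ∈ (wt a).support := by
  have h1 := wt_mono (single_le hp)
  rw [wt_single, one_smul] at h1
  have ha := h1 p.1.1
  have hb := h1 p.1.2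
  simp [pw, Finsupp.single_apply] at ha hb
  constructor
  · rw [Finsupp.mem_support_iff]; omega
  · rw [Finsupp.mem_support_iff]; omega

lemma card_wt_support (a : Idx →₀ ℕ) : (wt a).support.card ≤ 2 * a.degree := by
  induction a using Finsupp.induction_linear with
  | zero => simp
  | add f g hf hg =>
    rw [map_add, map_add]
    have := Finset.card_le_card (Finsupp.support_add (g₁ := wt f) (g₂ := wt g))
    have h2 := Finset.card_union_le (wt f).support (wt g).support
    omega
  | single p n =>
    rw [wt_single, Finsupp.degree_single]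
    rcases Nat.eq_zero_or_pos n with rfl | hn
    · simp
    · have h1 : (n • pw p).support ⊆ {p.1.1, p.1.2} := by
        intro x hx
        rw [Finsupp.mem_support_iff] at hx
        simp only [pw, Finsupp.smul_apply, Finsupp.add_apply, Finsupp.single_apply] at hx
        simp only [Finset.mem_insert, Finset.mem_singleton]
        by_contra hcon
        push Not at hcon
        rw [if_neg (Ne.symm hcon.1), if_neg (Ne.symm hcon.2)] at hx
        simp at hx
      have h2 := Finset.card_le_card h1
      have h3 := Finset.card_le_two (a := p.1.1) (b := p.1.2)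
      omega

lemma wt_mapDomain (ρ : ℕ → ℕ) (hρ : Function.Injective ρ) (a : Idx →₀ ℕ) :
    wt (a.mapDomain (act ρ hρ)) = (wt a).mapDomain ρ := by
  induction a using Finsupp.induction_linear with
  | zero => simp
  | add f g hf hg => rw [Finsupp.mapDomain_add, map_add, hf, hg, map_add, Finsupp.mapDomain_add]
  | single p n =>
    rw [Finsupp.mapDomain_single, wt_single, wt_single, Finsupp.mapDomain_smul]
    unfold pw
    rw [Finsupp.mapDomain_add, Finsupp.mapDomain_single, Finsupp.mapDomain_single]
    rfl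

lemma degree_mapDomain (g : Idx → Idx) (a : Idx →₀ ℕ) : (a.mapDomain g).degree = a.degree := by
  induction a using Finsupp.induction_linear with
  | zero => simp
  | add f g hf hg => rw [Finsupp.mapDomain_add, map_add, hf, hg, map_add]
  | single p n => rw [Finsupp.mapDomain_single, Finsupp.degree_single, Finsupp.degree_single]

lemma small_mem {a b : Idx →₀ ℕ} (ha : a.degree ≤ 3) (hab : wt a = wt b) :
    (monomial a 1 - monomial b 1 : R) ∈ J := by
  have hb : b.degree ≤ 3 := by
    have h1 := wt_degree a
    have h2 := wt_degree b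
    rw [hab] at h1
    omega
  obtain ⟨σ, hσ, hV⟩ := exists_perm (wt a).support
  have hc := card_wt_support a
  have hV' : ∀ v ∈ (wt a).support, σ v < 6 := fun v hv => by
    have := hV v hv
    omega
  apply Ideal.subset_span
  refine ⟨σ⁻¹, ?_, monomial (a.mapDomain (act σ σ.injective)) 1 -
    monomial (b.mapDomain (act σ σ.injective)) 1, ?_, ?_⟩
  · apply hσ.subset
    intro i hi
    simp only [Set.mem_ofPred_eq] at hi ⊢
    intro h
    apply hi
    rw [Equiv.Perm.inv_eq_iff_eq]
    exact h.symm
  · refine ⟨_, _, ?_, ?_, ?_, rfl⟩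
    · apply le_bnd
      · rw [degree_mapDomain]; exact ha
      · intro p hp
        have := Finsupp.mapDomain_support hp
        rw [Finset.mem_image] at this
        obtain ⟨q, hq, rfl⟩ := this
        have h1 := mem_wt_support hq
        exact ⟨hV' _ h1.1, hV' _ h1.2⟩
    · apply le_bnd
      · rw [degree_mapDomain]; exact hb
      · intro p hp
        have := Finsupp.mapDomain_support hp
        rw [Finset.mem_image] at this
        obtain ⟨q, hq, rfl⟩ := this
        have h1 := mem_wt_support hq
        rw [← hab] at h1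
        exact ⟨hV' _ h1.1, hV' _ h1.2⟩
    · rw [wt_mapDomain, wt_mapDomain, hab]
  · rw [map_sub, rename_monomial, rename_monomial, ← Finsupp.mapDomain_comp,
      ← Finsupp.mapDomain_comp]
    have : (act (σ⁻¹ : Equiv.Perm ℕ) (σ⁻¹ : Equiv.Perm ℕ).injective) ∘ (act σ σ.injective) = id := by
      funext p
      apply Subtype.ext
      simp [act]
    rw [this, Finsupp.mapDomain_id, Finsupp.mapDomain_id]

lemma move_mem {a1 b1 c : Idx →₀ ℕ} (ha : a1.degree ≤ 3) (hab : wt a1 = wt b1) :
    (monomial (a1 + c) 1 - monomial (b1 + c) 1 : R) ∈ J := by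
  have : (monomial (a1 + c) 1 - monomial (b1 + c) 1 : R) =
      monomial c 1 * (monomial a1 1 - monomial b1 1) := by
    rw [mul_sub, monomial_mul, monomial_mul, one_mul, add_comm c a1, add_comm c b1]
  rw [this]
  exact Ideal.mul_mem_left _ _ (small_mem ha hab)

lemma binomial_mem : ∀ (n : ℕ) (a b : Idx →₀ ℕ), (wt a).degree ≤ n → wt a = wt b →
    (monomial a 1 - monomial b 1 : R) ∈ J := by
  intro n
  induction n using Nat.strong_induction_on with
  | _ n ih =>
    intro a b hn hab
    by_cases ha : a = 0
    · subst ha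
      have h1 := wt_degree b
      rw [← hab] at h1
      simp at h1
      have : b = 0 := by
        rw [← Finsupp.degree_eq_zero_iff]; omega
      rw [this, sub_self]
      exact J.zero_mem
    · obtain ⟨w, v, hG⟩ := exists_good ha
      obtain ⟨a1, b1, c, b', h1, h2, h3, h4⟩ := move hG
      have hG' : Good (wt b) w v := hab ▸ hG
      obtain ⟨a2, b2, d, b'', k1, k2, k3, k4⟩ := move hG'
      have e1 : (monomial a 1 - monomial (b1 + c) 1 : R) ∈ J := by
        rw [h1]; exact move_mem h2 h3
      have e2 : (monomial b 1 - monomial (b2 + d) 1 : R) ∈ J := by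
        rw [k1]; exact move_mem k2 k3
      have e3 : wt (b1 + c) = wt (b2 + d) := by
        rw [map_add, ← h3, ← map_add, ← h1, hab, k1, map_add, k3, ← map_add]
      have e4 : wt (b' + c) = wt (b'' + d) := by
        rw [h4, k4, add_assoc, add_assoc, map_add, map_add wt (sv w v hG.ne)] at e3
        exact add_left_cancel e3
      have e5 : (wt (b' + c)).degree < (wt a).degree := by
        have : wt a = wt (b1 + c) := by
          rw [map_add, ← h3, ← map_add, ← h1]
        rw [this, h4]
        simp only [map_add, wt_degree, deg_sv]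
        omega
      have e6 : (monomial (b' + c) 1 - monomial (b'' + d) 1 : R) ∈ J :=
        ih _ (lt_of_lt_of_le e5 hn) _ _ le_rfl e4
      have e7 : (monomial (b1 + c) 1 - monomial (b2 + d) 1 : R) ∈ J := by
        have : (monomial (b1 + c) 1 - monomial (b2 + d) 1 : R) =
            monomial (sv w v hG.ne) 1 * (monomial (b' + c) 1 - monomial (b'' + d) 1) := by
          rw [h4, k4, mul_sub, monomial_mul, monomial_mul, one_mul, add_assoc, add_assoc]
        rw [this]
        exact Ideal.mul_mem_left _ _ e6
      have : (monomial a 1 - monomial b 1 : R) =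
          (monomial a 1 - monomial (b1 + c) 1) + (monomial (b1 + c) 1 - monomial (b2 + d) 1) -
          (monomial b 1 - monomial (b2 + d) 1) := by ring
      rw [this]
      exact J.sub_mem (J.add_mem e1 e7) e2

/-- a section of `wt` on its image -/
noncomputable def rep (D : ℕ →₀ ℕ) : Idx →₀ ℕ := by
  classical
  exact if h : ∃ a, wt a = D then h.choose else 0

lemma wt_rep (a : Idx →₀ ℕ) : wt (rep (wt a)) = wt a := by
  have h : ∃ b, wt b = wt a := ⟨a, rfl⟩
  unfold rep
  rw [dif_pos h]
  exact h.choose_spec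

lemma ker_le_J : kerPhi f0 ≤ J := by
  intro p hp
  rw [mem_ker, phi_eq_sum] at hp
  -- linear map sending each multidegree to its representative
  let Ψ : MvPolynomial ℕ ℂ →ₗ[ℂ] R :=
    (basisMonomials ℕ ℂ).constr ℂ (fun D => (monomial (rep D) 1 : R))
  have hΨ : ∀ (D : ℕ →₀ ℕ) (c : ℂ), Ψ (monomial D c) = monomial (rep D) c := by
    intro D c
    have h1 : (monomial D c : MvPolynomial ℕ ℂ) = c • (basisMonomials ℕ ℂ) D := by
      rw [coe_basisMonomials, smul_monomial, smul_eq_mul, mul_one]
    rw [h1, map_smul, Module.Basis.constr_basis, smul_monomial, smul_eq_mul, mul_one]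
  have h2 := congrArg Ψ hp
  rw [map_sum, map_zero] at h2
  simp only [hΨ] at h2
  have h3 : p = ∑ a ∈ p.support, (monomial a (coeff a p) - monomial (rep (wt a)) (coeff a p)) := by
    rw [Finset.sum_sub_distrib, h2, sub_zero]
    exact p.as_sum
  rw [h3]
  apply J.sum_mem
  intro a _
  have h4 : (monomial a (coeff a p) - monomial (rep (wt a)) (coeff a p) : R) =
      C (coeff a p) * (monomial a 1 - monomial (rep (wt a)) 1) := by
    rw [mul_sub, C_mul_monomial, C_mul_monomial, mul_one]
  rw [h4]
  exact Ideal.mul_mem_left _ _ (binomial_mem _ _ _ le_rfl (wt_rep a).symm)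

theorem fg : FGUpToSymmetry (kerPhi f0) :=
  ⟨genF, genF_finite, genF_sub, le_antisymm J_le ker_le_J⟩

/-- For `f = s^2 t` the kernel of `φ_f` is finitely generated up to symmetry, but there is a
monomial order respecting `Inc(ℕ)` for which it has no finite equivariant Groebner basis.
(The index set is `ℕ = {0, 1, 2, ...}`; shifting by one gives the indices `1, 2, 3, ...`.) -/
theorem result :
    FGUpToSymmetry (kerPhi (X 0 ^ 2 * X 1)) ∧
    ∃ m : MonomialOrder.{0, 0} Idx, RespectsInc m ∧
      ∀ G : Set R, G.Finite → ¬ IsEGB m (kerPhi (X 0 ^ 2 * X 1)) G :=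
  ⟨fg, badOrder, bad_respects, no_finite_EGB⟩

end Pool.Agent.Results.MP_72f11f_al.NoFiniteEGB
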